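import Mathlib

/-!
# Bi-Lipschitz norm preserving equivalences of subsets of normed spaces
-/

set_option autoImplicit false

namespace Pool.Agent.W2helper13.Sph

open Filter Topology

universe u v w x

/-- The sets `C` and `D` are bi-Lipschitz homeomorphic, by maps which preserve the norm. -/
def HRel {V : Type u} {W : Type v} [NormedAddCommGroup V] [NormedAddCommGroup W]
    (C : Set V) (D : Set W) : Prop :=
  ∃ (f : V → W) (g : W → V) (K : ℝ), 0 ≤ K ∧ (∀ v ∈ C, f v ∈ D) ∧ (∀ w ∈ D, g w ∈ C) ∧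
    (∀ v ∈ C, g (f v) = v) ∧ (∀ w ∈ D, f (g w) = w) ∧ (∀ v ∈ C, ‖f v‖ = ‖v‖) ∧
    (∀ v ∈ C, ∀ v' ∈ C, ‖f v - f v'‖ ≤ K * ‖v - v'‖) ∧
    (∀ w ∈ D, ∀ w' ∈ D, ‖g w - g w'‖ ≤ K * ‖w - w'‖)

section

variable {V : Type u} {W : Type v} {U : Type w} {Z : Type x}
  [NormedAddCommGroup V] [NormedAddCommGroup W] [NormedAddCommGroup U] [NormedAddCommGroup Z]
  {C : Set V} {D : Set W} {E : Set U}

lemma HRel.symm (h : HRel C D) : HRel D C := by
  obtain ⟨f, g, K, hK, h1, h2, h3, h4, h5, h6, h7⟩ := h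
  refine ⟨g, f, K, hK, h2, h1, h4, h3, ?_, h7, h6⟩
  intro w hw
  rw [← h5 (g w) (h2 w hw), h4 w hw]

lemma HRel.trans (h : HRel C D) (h' : HRel D E) : HRel C E := by
  obtain ⟨f, g, K, hK, h1, h2, h3, h4, h5, h6, h7⟩ := h
  obtain ⟨f', g', K', hK', h1', h2', h3', h4', h5', h6', h7'⟩ := h'
  refine ⟨f' ∘ f, g ∘ g', K' * K, by positivity, fun v hv => h1' _ (h1 v hv),
    fun w hw => h2 _ (h2' w hw), ?_, ?_, ?_, ?_, ?_⟩
  · intro v hv
    simp only [Function.comp]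
    rw [h3' _ (h1 v hv), h3 v hv]
  · intro w hw
    simp only [Function.comp]
    rw [h4 _ (h2' w hw), h4' w hw]
  · intro v hv
    simp only [Function.comp]
    rw [h5' _ (h1 v hv), h5 v hv]
  · intro v hv v' hv'
    simp only [Function.comp]
    refine (h6' _ (h1 v hv) _ (h1 v' hv')).trans ?_
    rw [mul_assoc]
    exact mul_le_mul_of_nonneg_left (h6 v hv v' hv') hK'
  · intro w hw w' hw'
    simp only [Function.comp]
    refine (h7 _ (h2' w hw) _ (h2' w' hw')).trans ?_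
    rw [mul_comm K' K, mul_assoc]
    exact mul_le_mul_of_nonneg_left (h7' w hw w' hw') hK

lemma HRel.refl (C : Set V) : HRel C C :=
  ⟨id, id, 1, zero_le_one, fun _ h => h, fun _ h => h, fun _ _ => rfl, fun _ _ => rfl,
    fun _ _ => rfl, fun _ _ _ _ => by simp, fun _ _ _ _ => by simp⟩

/-- Products with a fixed space (supremum norm). -/
lemma HRel.prod (h : HRel C D) (Z : Type x) [NormedAddCommGroup Z] :
    HRel (C ×ˢ (Set.univ : Set Z)) (D ×ˢ (Set.univ : Set Z)) := by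
  obtain ⟨f, g, K, hK, h1, h2, h3, h4, h5, h6, h7⟩ := h
  have h5' : ∀ w ∈ D, ‖g w‖ = ‖w‖ := fun w hw => by rw [← h5 (g w) (h2 w hw), h4 w hw]
  refine ⟨fun p => (f p.1, p.2), fun p => (g p.1, p.2), max K 1, by positivity, ?_, ?_, ?_, ?_, ?_,
    ?_, ?_⟩
  · rintro ⟨v, z⟩ ⟨hv, -⟩
    exact ⟨h1 v hv, Set.mem_univ _⟩
  · rintro ⟨v, z⟩ ⟨hv, -⟩
    exact ⟨h2 v hv, Set.mem_univ _⟩
  · rintro ⟨v, z⟩ ⟨hv, -⟩
    simp only [Prod.mk.injEq, and_true]
    exact h3 v hv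
  · rintro ⟨v, z⟩ ⟨hv, -⟩
    simp only [Prod.mk.injEq, and_true]
    exact h4 v hv
  · rintro ⟨v, z⟩ ⟨hv, -⟩
    simp only [Prod.norm_def]
    rw [h5 v hv]
  · rintro ⟨v, z⟩ ⟨hv, -⟩ ⟨v', z'⟩ ⟨hv', -⟩
    simp only [Prod.norm_def, Prod.fst_sub, Prod.snd_sub]
    apply max_le
    · refine (h6 v hv v' hv').trans ?_
      exact mul_le_mul (le_max_left _ _) (le_max_left _ _) (norm_nonneg _) (by positivity)
    · calc ‖z - z'‖ = 1 * ‖z - z'‖ := (one_mul _).symm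
        _ ≤ _ := mul_le_mul (le_max_right _ _) (le_max_right _ _) (norm_nonneg _) (by positivity)
  · rintro ⟨v, z⟩ ⟨hv, -⟩ ⟨v', z'⟩ ⟨hv', -⟩
    simp only [Prod.norm_def, Prod.fst_sub, Prod.snd_sub]
    apply max_le
    · refine (h7 v hv v' hv').trans ?_
      exact mul_le_mul (le_max_left _ _) (le_max_left _ _) (norm_nonneg _) (by positivity)
    · calc ‖z - z'‖ = 1 * ‖z - z'‖ := (one_mul _).symm
        _ ≤ _ := mul_le_mul (le_max_right _ _) (le_max_right _ _) (norm_nonneg _) (by positivity)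

end

section normalise

variable {V : Type u} {W : Type v} [NormedAddCommGroup V] [NormedAddCommGroup W]
  [NormedSpace ℝ V] [NormedSpace ℝ W] {C : Set V} {D : Set W}

lemma normalise_aux {f : V → W} {K L : ℝ} (hK : 0 ≤ K) (hL : 0 ≤ L)
    (hf : ∀ v ∈ C, ∀ v' ∈ C, ‖f v - f v'‖ ≤ K * ‖v - v'‖)
    (hlow : ∀ v ∈ C, ‖v‖ ≤ L * ‖f v‖) :
    ∀ v ∈ C, ∀ v' ∈ C, ‖f v'‖ ≤ ‖f v‖ →
      ‖(‖v‖ / ‖f v‖) • f v - (‖v'‖ / ‖f v'‖) • f v'‖ ≤ (1 + 2 * L * K) * ‖v - v'‖ := by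
  intro v hv v' hv' hle
  rcases eq_or_ne (f v) 0 with h0 | h0
  · have h1 : f v' = 0 := by
      rw [h0, norm_zero] at hle
      exact norm_le_zero_iff.1 hle
    rw [h0, h1]
    simp only [smul_zero, sub_zero, norm_zero]
    positivity
  · have ha : 0 < ‖f v‖ := norm_pos_iff.2 h0
    have e1 : (‖v‖ / ‖f v‖) • f v - (‖v'‖ / ‖f v'‖) • f v'
        = (‖v‖ / ‖f v‖) • (f v - f v') + ((‖v‖ / ‖f v‖) - (‖v'‖ / ‖f v'‖)) • f v' := by
      rw [smul_sub, sub_smul]; abel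
    rw [e1]
    refine (norm_add_le _ _).trans ?_
    rw [norm_smul, norm_smul, Real.norm_eq_abs, Real.norm_eq_abs,
      abs_of_nonneg (div_nonneg (norm_nonneg _) (norm_nonneg _))]
    have h2 : ‖v‖ / ‖f v‖ ≤ L := by rw [div_le_iff₀ ha]; exact hlow v hv
    have h3 : ‖v‖ / ‖f v‖ * ‖f v - f v'‖ ≤ L * K * ‖v - v'‖ := by
      rw [mul_assoc]
      exact mul_le_mul h2 (hf v hv v' hv') (norm_nonneg _) hL
    have h4 : |‖v‖ / ‖f v‖ - ‖v'‖ / ‖f v'‖| * ‖f v'‖ ≤ (1 + L * K) * ‖v - v'‖ := by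
      rcases eq_or_ne (f v') 0 with h5 | h5
      · rw [h5, norm_zero, mul_zero]
        positivity
      · have hb : 0 < ‖f v'‖ := norm_pos_iff.2 h5
        have e2 : |‖v‖ / ‖f v‖ - ‖v'‖ / ‖f v'‖| * ‖f v'‖
            = |(‖v‖ - ‖v'‖) * ‖f v'‖ + ‖v'‖ * (‖f v'‖ - ‖f v‖)| / ‖f v‖ := by
          rw [eq_div_iff ha.ne']
          have e3 : (‖v‖ - ‖v'‖) * ‖f v'‖ + ‖v'‖ * (‖f v'‖ - ‖f v‖)
              = (‖v‖ / ‖f v‖ - ‖v'‖ / ‖f v'‖) * ‖f v'‖ * ‖f v‖ := by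
            field_simp
            ring
          rw [e3, abs_mul, abs_mul, abs_of_pos hb, abs_of_pos ha]
        rw [e2, div_le_iff₀ ha]
        refine (abs_add_le _ _).trans ?_
        rw [abs_mul, abs_mul, abs_of_nonneg (norm_nonneg (f v')), abs_of_nonneg (norm_nonneg v')]
        have h6 : |‖v‖ - ‖v'‖| ≤ ‖v - v'‖ := abs_norm_sub_norm_le v v'
        have h7 : |‖f v'‖ - ‖f v‖| ≤ K * ‖v - v'‖ := by
          rw [abs_sub_comm]
          exact (abs_norm_sub_norm_le _ _).trans (hf v hv v' hv')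
        have h8 : ‖v'‖ ≤ L * ‖f v‖ :=
          (hlow v' hv').trans (mul_le_mul_of_nonneg_left hle hL)
        have h9 : |‖v‖ - ‖v'‖| * ‖f v'‖ ≤ ‖v - v'‖ * ‖f v‖ :=
          mul_le_mul h6 hle hb.le (norm_nonneg _)
        have h10 : ‖v'‖ * |‖f v'‖ - ‖f v‖| ≤ (L * ‖f v‖) * (K * ‖v - v'‖) :=
          mul_le_mul h8 h7 (abs_nonneg _) (by positivity)
        calc _ ≤ ‖v - v'‖ * ‖f v‖ + (L * ‖f v‖) * (K * ‖v - v'‖) := add_le_add h9 h10
          _ = _ := by ring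
    calc _ ≤ L * K * ‖v - v'‖ + (1 + L * K) * ‖v - v'‖ := add_le_add h3 h4
      _ = _ := by ring

/-- Positively homogeneous bi-Lipschitz maps can be made norm preserving. -/
lemma hrel_of_homogeneous (f : V → W) (g : W → V) {K : ℝ} (hK : 0 ≤ K)
    (hC : ∀ v ∈ C, ∀ t : ℝ, 0 ≤ t → t • v ∈ C) (hD : ∀ w ∈ D, ∀ t : ℝ, 0 ≤ t → t • w ∈ D)
    (h0C : (0 : V) ∈ C) (h0D : (0 : W) ∈ D)
    (hf : ∀ v ∈ C, ∀ t : ℝ, 0 ≤ t → f (t • v) = t • f v)
    (hg : ∀ w ∈ D, ∀ t : ℝ, 0 ≤ t → g (t • w) = t • g w)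
    (h1 : ∀ v ∈ C, f v ∈ D) (h2 : ∀ w ∈ D, g w ∈ C) (h3 : ∀ v ∈ C, g (f v) = v)
    (h4 : ∀ w ∈ D, f (g w) = w)
    (h6 : ∀ v ∈ C, ∀ v' ∈ C, ‖f v - f v'‖ ≤ K * ‖v - v'‖)
    (h7 : ∀ w ∈ D, ∀ w' ∈ D, ‖g w - g w'‖ ≤ K * ‖w - w'‖) : HRel C D := by
  have f0 : f 0 = 0 := by
    have := hf 0 h0C 0 le_rfl
    rwa [smul_zero, zero_smul] at this
  have g0 : g 0 = 0 := by
    have := hg 0 h0D 0 le_rfl
    rwa [smul_zero, zero_smul] at this
  have lf : ∀ v ∈ C, ‖v‖ ≤ K * ‖f v‖ := by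
    intro v hv
    have := h7 (f v) (h1 v hv) 0 h0D
    rwa [g0, sub_zero, sub_zero, h3 v hv] at this
  have lg : ∀ w ∈ D, ‖w‖ ≤ K * ‖g w‖ := by
    intro w hw
    have := h6 (g w) (h2 w hw) 0 h0C
    rwa [f0, sub_zero, sub_zero, h4 w hw] at this
  have nf : ∀ v ∈ C, ‖(‖v‖ / ‖f v‖) • f v‖ = ‖v‖ := by
    intro v hv
    rw [norm_smul, Real.norm_eq_abs, abs_of_nonneg (div_nonneg (norm_nonneg _) (norm_nonneg _))]
    rcases eq_or_ne (f v) 0 with h | h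
    · have := lf v hv
      rw [h, norm_zero, mul_zero] at this
      have h' := norm_le_zero_iff.1 this
      rw [h, h', norm_zero]; simp
    · rw [div_mul_cancel₀ _ (norm_ne_zero_iff.2 h)]
  have ng : ∀ w ∈ D, ‖(‖w‖ / ‖g w‖) • g w‖ = ‖w‖ := by
    intro w hw
    rw [norm_smul, Real.norm_eq_abs, abs_of_nonneg (div_nonneg (norm_nonneg _) (norm_nonneg _))]
    rcases eq_or_ne (g w) 0 with h | h
    · have := lg w hw
      rw [h, norm_zero, mul_zero] at this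
      have h' := norm_le_zero_iff.1 this
      rw [h, h', norm_zero]; simp
    · rw [div_mul_cancel₀ _ (norm_ne_zero_iff.2 h)]
  have key : ∀ {A B : ℝ}, 0 ≤ A → 0 ≤ B → 0 ≤ A / B := fun h h' => div_nonneg h h'
  refine ⟨fun v => (‖v‖ / ‖f v‖) • f v, fun w => (‖w‖ / ‖g w‖) • g w, 1 + 2 * K * K,
    by positivity, ?_, ?_, ?_, ?_, nf, ?_, ?_⟩
  · intro v hv
    exact hD _ (h1 v hv) _ (key (norm_nonneg _) (norm_nonneg _))
  · intro w hw
    exact hC _ (h2 w hw) _ (key (norm_nonneg _) (norm_nonneg _))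
  · intro v hv
    simp only
    rw [nf v hv, hg _ (h1 v hv) _ (key (norm_nonneg _) (norm_nonneg _)), h3 v hv]
    rcases eq_or_ne v 0 with h | h
    · subst h; simp
    · have hv0 : ‖v‖ ≠ 0 := norm_ne_zero_iff.2 h
      have hfv : ‖f v‖ ≠ 0 := by
        intro h'
        have := lf v hv
        rw [h', mul_zero] at this
        exact h (norm_le_zero_iff.1 this)
      rw [norm_smul, Real.norm_eq_abs, abs_of_nonneg (key (norm_nonneg _) (norm_nonneg _)),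
        smul_smul]
      have : ‖v‖ / (‖v‖ / ‖f v‖ * ‖v‖) * (‖v‖ / ‖f v‖) = 1 := by
        field_simp
      rw [this, one_smul]
  · intro w hw
    simp only
    rw [ng w hw, hf _ (h2 w hw) _ (key (norm_nonneg _) (norm_nonneg _)), h4 w hw]
    rcases eq_or_ne w 0 with h | h
    · subst h; simp
    · have hv0 : ‖w‖ ≠ 0 := norm_ne_zero_iff.2 h
      have hfv : ‖g w‖ ≠ 0 := by
        intro h'
        have := lg w hw
        rw [h', mul_zero] at this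
        exact h (norm_le_zero_iff.1 this)
      rw [norm_smul, Real.norm_eq_abs, abs_of_nonneg (key (norm_nonneg _) (norm_nonneg _)),
        smul_smul]
      have : ‖w‖ / (‖w‖ / ‖g w‖ * ‖w‖) * (‖w‖ / ‖g w‖) = 1 := by
        field_simp
      rw [this, one_smul]
  · intro v hv v' hv'
    rcases le_total ‖f v'‖ ‖f v‖ with h | h
    · exact normalise_aux hK hK h6 lf v hv v' hv' h
    · rw [norm_sub_rev, norm_sub_rev v v']
      exact normalise_aux hK hK h6 lf v' hv' v hv h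
  · intro v hv v' hv'
    rcases le_total ‖g v'‖ ‖g v‖ with h | h
    · exact normalise_aux hK hK h7 lg v hv v' hv' h
    · rw [norm_sub_rev, norm_sub_rev v v']
      exact normalise_aux hK hK h7 lg v' hv' v hv h

/-- Linear isomorphisms. -/
lemma hrel_of_linear (T : V ≃L[ℝ] W) : HRel (Set.univ : Set V) (Set.univ : Set W) := by
  refine hrel_of_homogeneous T T.symm
    (K := max ‖(T : V →L[ℝ] W)‖ ‖(T.symm : W →L[ℝ] V)‖) (le_max_of_le_left (norm_nonneg _))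
    (fun _ _ _ _ => Set.mem_univ _) (fun _ _ _ _ => Set.mem_univ _) (Set.mem_univ _)
    (Set.mem_univ _) (fun v _ t _ => map_smul T t v) (fun w _ t _ => map_smul T.symm t w)
    (fun _ _ => Set.mem_univ _) (fun _ _ => Set.mem_univ _) (fun v _ => T.symm_apply_apply v)
    (fun w _ => T.apply_symm_apply w) ?_ ?_
  · intro v _ v' _
    rw [← map_sub]
    exact ((T : V →L[ℝ] W).le_opNorm _).trans
      (mul_le_mul_of_nonneg_right (le_max_left _ _) (norm_nonneg _))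
  · intro v _ v' _
    rw [← map_sub]
    exact ((T.symm : W →L[ℝ] V).le_opNorm _).trans
      (mul_le_mul_of_nonneg_right (le_max_right _ _) (norm_nonneg _))

end normalise

end Pool.Agent.W2helper13.Sph
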