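import Mathlib

/-!
# A discrete Pitman transform

For a bounded real sequence `F` let `mid F k = (F k + F (k+1)) / 2`, let `MM F k` be the supremum of
`mid F j` over `j ≥ k`. For a sequence `R` and a number `m` let `NN R m` be defined by
`NN R m 0 = m`, `NN R m (k+1) = min (NN R m k) (mid R k)`. Then `F ↦ (2 MM F - F, MM F 0)` and
`(R, m) ↦ 2 NN R m - R` are inverse to each other.
-/

set_option autoImplicit false

namespace Pool.Agent.W2helper13.Sph

open Filter Topology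

/-- Midpoints of a sequence. -/
noncomputable def mid (F : ℕ → ℝ) (k : ℕ) : ℝ := (F k + F (k + 1)) / 2

/-- The running supremum (from infinity) of the midpoints. -/
noncomputable def MM (F : ℕ → ℝ) (k : ℕ) : ℝ := ⨆ j, mid F (k + j)

/-- The running minimum of the midpoints, started at `m`. -/
noncomputable def NN (R : ℕ → ℝ) (m : ℝ) : ℕ → ℝ
  | 0 => m
  | k + 1 => min (NN R m k) (mid R k)

/-- Upper limit of the midpoints. -/
noncomputable def LL (F : ℕ → ℝ) : ℝ := ⨅ k, MM F k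

/-- Lower limit of the midpoints. -/
noncomputable def Lam (R : ℕ → ℝ) : ℝ := - LL (fun k => - R k)

/-- Boundedness. -/
def Bdd (F : ℕ → ℝ) : Prop := ∃ C, ∀ k, |F k| ≤ C

lemma mid_neg (F : ℕ → ℝ) (k : ℕ) : mid (fun k => - F k) k = - mid F k := by
  simp only [mid]; ring

lemma mid_abs_le {F : ℕ → ℝ} {C : ℝ} (h : ∀ k, |F k| ≤ C) (k : ℕ) : |mid F k| ≤ C := by
  have h1 := abs_le.1 (h k)
  have h2 := abs_le.1 (h (k + 1))
  rw [abs_le, mid]
  constructor <;> linarith [h1.1, h1.2, h2.1, h2.2]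

lemma Bdd.neg {F : ℕ → ℝ} (h : Bdd F) : Bdd (fun k => - F k) := by
  obtain ⟨C, hC⟩ := h
  exact ⟨C, fun k => by rw [abs_neg]; exact hC k⟩

lemma bddAbove_mid {F : ℕ → ℝ} (h : Bdd F) (k : ℕ) :
    BddAbove (Set.range fun j => mid F (k + j)) := by
  obtain ⟨C, hC⟩ := h
  refine ⟨C, ?_⟩
  rintro _ ⟨j, rfl⟩
  exact (abs_le.1 (mid_abs_le hC _)).2

lemma mid_le_MM {F : ℕ → ℝ} (h : Bdd F) {k j : ℕ} (hkj : k ≤ j) : mid F j ≤ MM F k := by
  obtain ⟨i, rfl⟩ := Nat.exists_eq_add_of_le hkj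
  exact le_ciSup (bddAbove_mid h k) i

lemma MM_le {F : ℕ → ℝ} {k : ℕ} {c : ℝ} (hc : ∀ j, k ≤ j → mid F j ≤ c) : MM F k ≤ c :=
  ciSup_le fun j => hc _ (Nat.le_add_right _ _)

lemma MM_succ {F : ℕ → ℝ} (h : Bdd F) (k : ℕ) : MM F k = max (mid F k) (MM F (k + 1)) := by
  apply le_antisymm
  · apply MM_le
    intro j hj
    rcases hj.eq_or_lt with rfl | hj
    · exact le_max_left _ _
    · exact (mid_le_MM h hj).trans (le_max_right _ _)
  · apply max_le (mid_le_MM h le_rfl)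
    exact MM_le fun j hj => mid_le_MM h (by omega)

lemma MM_antitone {F : ℕ → ℝ} (h : Bdd F) : Antitone (MM F) := by
  apply antitone_nat_of_succ_le
  intro k
  rw [MM_succ h k]
  exact le_max_right _ _

lemma MM_abs_le {F : ℕ → ℝ} {C : ℝ} (h : ∀ k, |F k| ≤ C) (k : ℕ) : |MM F k| ≤ C := by
  have hb : Bdd F := ⟨C, h⟩
  rw [abs_le]
  constructor
  · exact (abs_le.1 (mid_abs_le h k)).1.trans (mid_le_MM hb le_rfl)
  · exact MM_le fun j _ => (abs_le.1 (mid_abs_le h j)).2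

lemma MM_bdd {F : ℕ → ℝ} (h : Bdd F) : Bdd (MM F) := by
  obtain ⟨C, hC⟩ := h
  exact ⟨C, MM_abs_le hC⟩

lemma MM_bddBelow {F : ℕ → ℝ} (h : Bdd F) : BddBelow (Set.range (MM F)) := by
  obtain ⟨C, hC⟩ := MM_bdd h
  exact ⟨-C, by rintro _ ⟨k, rfl⟩; exact (abs_le.1 (hC k)).1⟩

lemma tendsto_MM {F : ℕ → ℝ} (h : Bdd F) : Tendsto (MM F) atTop (𝓝 (LL F)) :=
  tendsto_atTop_ciInf (MM_antitone h) (MM_bddBelow h)

lemma LL_le_MM {F : ℕ → ℝ} (h : Bdd F) (k : ℕ) : LL F ≤ MM F k :=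
  ciInf_le (MM_bddBelow h) k

/-- `L` is the upper limit of `s`. -/
def IsLS (s : ℕ → ℝ) (L : ℝ) : Prop :=
  (∀ ε > 0, ∀ᶠ j in atTop, s j < L + ε) ∧ (∀ ε > 0, ∃ᶠ j in atTop, L - ε < s j)

lemma IsLS.le {s t : ℕ → ℝ} {L L' δ : ℝ} (h : IsLS s L) (h' : IsLS t L')
    (hst : ∀ᶠ j in atTop, s j ≤ t j + δ) : L ≤ L' + δ := by
  apply le_of_forall_pos_le_add
  intro ε hε
  have h1 := h.2 (ε / 2) (by positivity)
  have h2 := h'.1 (ε / 2) (by positivity)
  obtain ⟨j, h3, h4, h5⟩ := (h1.and_eventually (h2.and hst)).exists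
  linarith

lemma IsLS.unique {s : ℕ → ℝ} {L L' : ℝ} (h : IsLS s L) (h' : IsLS s L') : L = L' := by
  apply le_antisymm
  · have := h.le h' (δ := 0) (Eventually.of_forall fun j => by simp)
    simpa using this
  · have := h'.le h (δ := 0) (Eventually.of_forall fun j => by simp)
    simpa using this

lemma isLS_mid {F : ℕ → ℝ} (h : Bdd F) : IsLS (mid F) (LL F) := by
  constructor
  · intro ε hε
    have := (tendsto_MM h).eventually_lt_const (show LL F < LL F + ε by linarith)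
    filter_upwards [this] with j hj
    exact (mid_le_MM h le_rfl).trans_lt hj
  · intro ε hε
    rw [frequently_atTop]
    intro k
    have h1 : LL F - ε < MM F k := by linarith [LL_le_MM h k]
    obtain ⟨j, hj⟩ := exists_lt_of_lt_ciSup h1
    exact ⟨k + j, Nat.le_add_right _ _, hj⟩

/-- `L` is the lower limit of `s`. -/
def IsLI (s : ℕ → ℝ) (L : ℝ) : Prop :=
  (∀ ε > 0, ∀ᶠ j in atTop, L - ε < s j) ∧ (∀ ε > 0, ∃ᶠ j in atTop, s j < L + ε)

lemma isLI_neg {s : ℕ → ℝ} {L : ℝ} : IsLI s L ↔ IsLS (fun j => - s j) (-L) := by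
  have e1 : ∀ ε : ℝ, ∀ j, (L - ε < s j ↔ - s j < -L + ε) := fun ε j =>
    ⟨fun h => by linarith, fun h => by linarith⟩
  have e2 : ∀ ε : ℝ, ∀ j, (s j < L + ε ↔ -L - ε < - s j) := fun ε j =>
    ⟨fun h => by linarith, fun h => by linarith⟩
  simp only [IsLI, IsLS, e1, e2]

lemma isLI_mid {R : ℕ → ℝ} (h : Bdd R) : IsLI (mid R) (Lam R) := by
  rw [isLI_neg, Lam, neg_neg]
  have := isLS_mid h.neg
  have e : (fun j => - mid R j) = mid (fun k => - R k) := by
    funext j; rw [mid_neg]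
  rw [e]
  exact this

lemma IsLI.unique {s : ℕ → ℝ} {L L' : ℝ} (h : IsLI s L) (h' : IsLI s L') : L = L' := by
  rw [isLI_neg] at h h'
  have := h.unique h'
  linarith

lemma IsLI.lip {s t : ℕ → ℝ} {L L' δ : ℝ} (h : IsLI s L) (h' : IsLI t L')
    (hst : ∀ j, |s j - t j| ≤ δ) : |L - L'| ≤ δ := by
  rw [isLI_neg] at h h'
  have h1 := h.le h' (δ := δ) (Eventually.of_forall fun j => by
    have := (abs_le.1 (hst j)).1; linarith)
  have h2 := h'.le h (δ := δ) (Eventually.of_forall fun j => by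
    have := (abs_le.1 (hst j)).2; linarith)
  rw [abs_le]
  constructor <;> linarith

/-- The transform of `F`. -/
noncomputable def RR (F : ℕ → ℝ) (k : ℕ) : ℝ := 2 * MM F k - F k

lemma mid_RR (F : ℕ → ℝ) (k : ℕ) : mid (RR F) k = MM F k + MM F (k + 1) - mid F k := by
  simp only [mid, RR]; ring

lemma RR_bdd {F : ℕ → ℝ} (h : Bdd F) : Bdd (RR F) := by
  obtain ⟨C, hC⟩ := h
  refine ⟨3 * C, fun k => ?_⟩
  have h1 := abs_le.1 (MM_abs_le hC k)
  have h2 := abs_le.1 (hC k)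
  rw [RR, abs_le]
  constructor <;> linarith [h1.1, h1.2, h2.1, h2.2]

lemma MM_succ_le_mid_RR {F : ℕ → ℝ} (h : Bdd F) (k : ℕ) : MM F (k + 1) ≤ mid (RR F) k := by
  rw [mid_RR]
  have := mid_le_MM h (le_refl k)
  linarith

lemma isLI_RR {F : ℕ → ℝ} (h : Bdd F) : IsLI (mid (RR F)) (LL F) := by
  constructor
  · intro ε hε
    filter_upwards with j
    have := MM_succ_le_mid_RR h j
    have := LL_le_MM h (j + 1)
    linarith
  · intro ε hε
    have h1 := (isLS_mid h).2 (ε / 3) (by positivity)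
    have h2 := (tendsto_MM h).eventually_lt_const (show LL F < LL F + ε / 3 by linarith)
    refine (h1.and_eventually h2).mono ?_
    rintro j ⟨h3, h4⟩
    rw [mid_RR]
    have := MM_antitone h (Nat.le_succ j)
    have h5 : MM F (j + 1) ≤ MM F j := this
    linarith

lemma Lam_RR {F : ℕ → ℝ} (h : Bdd F) : Lam (RR F) = LL F :=
  (isLI_mid (RR_bdd h)).unique (isLI_RR h)

lemma Lam_RR_le_mid {F : ℕ → ℝ} (h : Bdd F) (k : ℕ) : Lam (RR F) ≤ mid (RR F) k := by
  rw [Lam_RR h]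
  exact (LL_le_MM h (k + 1)).trans (MM_succ_le_mid_RR h k)

lemma Lam_RR_le_MM {F : ℕ → ℝ} (h : Bdd F) : Lam (RR F) ≤ MM F 0 := by
  rw [Lam_RR h]
  exact LL_le_MM h 0

/-- The transform can be inverted. -/
lemma NN_RR {F : ℕ → ℝ} (h : Bdd F) (k : ℕ) : NN (RR F) (MM F 0) k = MM F k := by
  induction k with
  | zero => rfl
  | succ k ih =>
    rw [NN, ih, mid_RR]
    have h1 := MM_succ h k
    rcases le_total (mid F k) (MM F (k + 1)) with h2 | h2
    · rw [max_eq_right h2] at h1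
      rw [min_eq_left (by linarith), h1]
    · rw [max_eq_left h2] at h1
      rw [min_eq_right (by linarith), h1]
      ring

section inverse

variable {R : ℕ → ℝ} {m : ℝ}

lemma NN_antitone : Antitone (NN R m) := by
  apply antitone_nat_of_succ_le
  intro k
  rw [NN]
  exact min_le_left _ _

/-- The domain of the inverse. -/
def Dom (R : ℕ → ℝ) (m : ℝ) : Prop := Bdd R ∧ Lam R ≤ m ∧ ∀ k, Lam R ≤ mid R k

lemma Dom.Lam_le_NN (h : Dom R m) (k : ℕ) : Lam R ≤ NN R m k := by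
  induction k with
  | zero => exact h.2.1
  | succ k ih => rw [NN]; exact le_min ih (h.2.2 k)

lemma Dom.NN_tendsto (h : Dom R m) : Tendsto (NN R m) atTop (𝓝 (Lam R)) := by
  have h1 : Tendsto (NN R m) atTop (𝓝 (⨅ k, NN R m k)) :=
    tendsto_atTop_ciInf NN_antitone ⟨Lam R, by rintro _ ⟨k, rfl⟩; exact h.Lam_le_NN k⟩
  have h2 : (⨅ k, NN R m k) = Lam R := by
    apply le_antisymm
    · apply le_of_forall_pos_le_add
      intro ε hε
      obtain ⟨j, hj⟩ := ((isLI_mid h.1).2 ε hε).exists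
      have h3 : (⨅ k, NN R m k) ≤ NN R m (j + 1) :=
        ciInf_le ⟨Lam R, by rintro _ ⟨k, rfl⟩; exact h.Lam_le_NN k⟩ (j + 1)
      have h4 : NN R m (j + 1) ≤ mid R j := by rw [NN]; exact min_le_right _ _
      linarith
    · exact le_ciInf fun k => h.Lam_le_NN k
  rwa [h2] at h1

/-- The inverse transform. -/
noncomputable def FF (R : ℕ → ℝ) (m : ℝ) (k : ℕ) : ℝ := 2 * NN R m k - R k

lemma mid_FF (k : ℕ) : mid (FF R m) k = NN R m k + NN R m (k + 1) - mid R k := by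
  simp only [mid, FF]; ring

lemma Dom.NN_bdd (h : Dom R m) : Bdd (NN R m) := by
  refine ⟨max |Lam R| |m|, fun k => ?_⟩
  rw [abs_le]
  have h1 := h.Lam_le_NN k
  have h2 : NN R m k ≤ m := NN_antitone (Nat.zero_le k)
  have h3 := neg_abs_le (Lam R)
  have h4 := le_abs_self m
  have h5 := le_max_left |Lam R| |m|
  have h6 := le_max_right |Lam R| |m|
  constructor <;> linarith

lemma Dom.FF_bdd (h : Dom R m) : Bdd (FF R m) := by
  obtain ⟨C, hC⟩ := h.NN_bdd
  obtain ⟨C', hC'⟩ := h.1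
  refine ⟨2 * C + C', fun k => ?_⟩
  have h1 := abs_le.1 (hC k)
  have h2 := abs_le.1 (hC' k)
  rw [FF, abs_le]
  constructor <;> linarith [h1.1, h1.2, h2.1, h2.2]

lemma NN_eq_max (k : ℕ) : NN R m k = max (mid (FF R m) k) (NN R m (k + 1)) := by
  rw [mid_FF]
  have h1 : NN R m (k + 1) = min (NN R m k) (mid R k) := rfl
  rcases le_total (NN R m k) (mid R k) with h2 | h2
  · rw [min_eq_left h2] at h1
    rw [max_eq_right (by linarith), h1]
  · rw [min_eq_right h2] at h1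
    rw [max_eq_left (by linarith)]
    linarith

lemma Dom.MM_FF (h : Dom R m) (k : ℕ) : MM (FF R m) k = NN R m k := by
  have hb := h.FF_bdd
  apply le_antisymm
  · apply MM_le
    intro j hj
    have h1 : mid (FF R m) j ≤ NN R m j := by rw [NN_eq_max j]; exact le_max_left _ _
    exact h1.trans (NN_antitone hj)
  · have h1 : ∀ j, NN R m k ≤ max (MM (FF R m) k) (NN R m (k + j)) := by
      intro j
      induction j with
      | zero => exact le_max_right _ _
      | succ j ih =>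
        refine ih.trans (max_le (le_max_left _ _) ?_)
        rw [NN_eq_max (k + j)]
        apply max_le
        · exact (mid_le_MM hb (Nat.le_add_right _ _)).trans (le_max_left _ _)
        · exact le_max_right _ _
    have h2 : Lam R ≤ MM (FF R m) k := by
      apply le_of_forall_pos_le_add
      intro ε hε
      have h3 := (isLI_mid h.1).2 ε hε
      obtain ⟨j, hj, h4⟩ := (frequently_atTop.1 h3) k
      have h5 := mid_le_MM hb hj
      rw [mid_FF] at h5
      have h6 := h.Lam_le_NN j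
      have h7 := h.Lam_le_NN (j + 1)
      linarith
    have h3 : Tendsto (fun j => max (MM (FF R m) k) (NN R m (k + j))) atTop
        (𝓝 (max (MM (FF R m) k) (Lam R))) := by
      refine tendsto_const_nhds.max ?_
      have := h.NN_tendsto.comp (tendsto_add_atTop_nat k)
      refine this.congr fun j => ?_
      simp [add_comm]
    have h4 := ge_of_tendsto' h3 h1
    rwa [max_eq_left h2] at h4

lemma Dom.RR_FF (h : Dom R m) : RR (FF R m) = R := by
  funext k
  rw [RR, h.MM_FF, FF]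
  ring

end inverse

lemma dom_RR {F : ℕ → ℝ} (h : Bdd F) {u : ℝ} (hu : 0 ≤ u) : Dom (RR F) (Lam (RR F) + u) :=
  ⟨RR_bdd h, by linarith, Lam_RR_le_mid h⟩

lemma FF_RR {F : ℕ → ℝ} (h : Bdd F) : FF (RR F) (MM F 0) = F := by
  funext k
  rw [FF, NN_RR h, RR]
  ring

end Pool.Agent.W2helper13.Sph
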