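import Mathlib
import Pool.Agent.W2helper13.Sph.Seq
import Pool.Agent.W2helper13.Sph.Rel

/-!
# Half-spaces over spaces of sequences on which the discrete Pitman transform acts
-/

set_option autoImplicit false

namespace Pool.Agent.W2helper13.Sph

open Filter Topology

universe u v

/-- A normed space of bounded sequences, on which the running supremum and the running minimum of
the midpoints act as Lipschitz maps. -/
structure PSpace (E : Type u) [NormedAddCommGroup E] [NormedSpace ℝ E] where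
  J : E →ₗ[ℝ] (ℕ → ℝ)
  inj : Function.Injective J
  bd : ∀ x k, |J x k| ≤ ‖x‖
  Mop : E → E
  hM : ∀ x, J (Mop x) = MM (J x)
  KM : ℝ
  KM0 : 0 ≤ KM
  lipM : ∀ x y, ‖Mop x - Mop y‖ ≤ KM * ‖x - y‖
  Nop : E → ℝ → E
  hN : ∀ R m, Dom (J R) m → J (Nop R m) = NN (J R) m
  lipN : ∀ R m R' m', Dom (J R) m → Dom (J R') m' →
    ‖Nop R m - Nop R' m'‖ ≤ KM * (‖R - R'‖ + |m - m'|)

variable {E : Type u} [NormedAddCommGroup E] [NormedSpace ℝ E]

namespace PSpace

variable (P : PSpace E)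

include P

lemma bdd (x : E) : Bdd (P.J x) := ⟨‖x‖, P.bd x⟩

end PSpace

lemma mid_smul (F : ℕ → ℝ) (t : ℝ) (k : ℕ) : mid (t • F) k = t * mid F k := by
  simp only [mid, Pi.smul_apply, smul_eq_mul]; ring

lemma MM_smul {F : ℕ → ℝ} {t : ℝ} (ht : 0 ≤ t) (k : ℕ) : MM (t • F) k = t * MM F k := by
  simp only [MM, mid_smul]
  rw [Real.mul_iSup_of_nonneg ht]

lemma NN_smul {R : ℕ → ℝ} {t m : ℝ} (ht : 0 ≤ t) (k : ℕ) :
    NN (t • R) (t * m) k = t * NN R m k := by
  induction k with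
  | zero => rfl
  | succ k ih => simp only [NN, ih, mid_smul, mul_min_of_nonneg _ _ ht]

lemma IsLI.smul {s : ℕ → ℝ} {L t : ℝ} (ht : 0 ≤ t) (h : IsLI s L) :
    IsLI (fun j => t * s j) (t * L) := by
  rcases ht.eq_or_lt with rfl | ht
  · refine ⟨fun ε hε => ?_, fun ε hε => ?_⟩
    · filter_upwards with j
      simp only [zero_mul]; linarith
    · refine Filter.Frequently.of_forall fun j => ?_
      simp only [zero_mul]; linarith
  · refine ⟨fun ε hε => ?_, fun ε hε => ?_⟩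
    · filter_upwards [h.1 (ε / t) (by positivity)] with j hj
      have := mul_lt_mul_of_pos_left hj ht
      rw [mul_sub, mul_div_cancel₀ _ ht.ne'] at this
      exact this
    · refine (h.2 (ε / t) (by positivity)).mono fun j hj => ?_
      have := mul_lt_mul_of_pos_left hj ht
      rw [mul_add, mul_div_cancel₀ _ ht.ne'] at this
      exact this

lemma Lam_smul {R : ℕ → ℝ} (hR : Bdd R) {t : ℝ} (ht : 0 ≤ t) : Lam (t • R) = t * Lam R := by
  have hb : Bdd (t • R) := by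
    obtain ⟨C, hC⟩ := hR
    refine ⟨t * C, fun k => ?_⟩
    rw [Pi.smul_apply, smul_eq_mul, abs_mul, abs_of_nonneg ht]
    exact mul_le_mul_of_nonneg_left (hC k) ht
  have h1 := isLI_mid hb
  have h2 := (isLI_mid hR).smul ht
  have e : mid (t • R) = fun j => t * mid R j := by funext j; rw [mid_smul]
  rw [e] at h1
  exact h1.unique h2

lemma MM_lip {F G : ℕ → ℝ} (hF : Bdd F) (hG : Bdd G) {δ : ℝ} (h : ∀ k, |F k - G k| ≤ δ) (k : ℕ) :
    |MM F k - MM G k| ≤ δ := by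
  have hm : ∀ j, |mid F j - mid G j| ≤ δ := by
    intro j
    have h1 := abs_le.1 (h j)
    have h2 := abs_le.1 (h (j + 1))
    rw [mid, mid, abs_le]
    constructor <;> linarith [h1.1, h1.2, h2.1, h2.2]
  have key : ∀ {F G : ℕ → ℝ}, Bdd G → (∀ j, mid F j ≤ mid G j + δ) → MM F k ≤ MM G k + δ := by
    intro F G hG h
    exact MM_le fun j hj => (h j).trans (by linarith [mid_le_MM hG hj])
  have h1 := key hG (F := F) (fun j => by linarith [(abs_le.1 (hm j)).2])
  have h2 := key hF (F := G) (fun j => by linarith [(abs_le.1 (hm j)).1])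
  rw [abs_le]
  constructor <;> linarith

lemma Lam_lip {F G : ℕ → ℝ} (hF : Bdd F) (hG : Bdd G) {δ : ℝ} (h : ∀ k, |F k - G k| ≤ δ) :
    |Lam F - Lam G| ≤ δ := by
  have hm : ∀ j, |mid F j - mid G j| ≤ δ := by
    intro j
    have h1 := abs_le.1 (h j)
    have h2 := abs_le.1 (h (j + 1))
    rw [mid, mid, abs_le]
    constructor <;> linarith [h1.1, h1.2, h2.1, h2.2]
  exact (isLI_mid hF).lip (isLI_mid hG) hm

namespace PSpace

variable (P : PSpace E)

/-- The transform `2 M x - x`. -/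
noncomputable def Rop (x : E) : E := (2 : ℝ) • P.Mop x - x

/-- The value `M_0`. -/
noncomputable def m0 (x : E) : ℝ := MM (P.J x) 0

/-- The inverse transform. -/
noncomputable def Fop (R : E) (m : ℝ) : E := (2 : ℝ) • P.Nop R m - R

lemma J_Rop (x : E) : P.J (P.Rop x) = RR (P.J x) := by
  rw [Rop, map_sub, map_smul, P.hM]
  rfl

/-- The lower limit of the midpoints. -/
noncomputable def lam (R : E) : ℝ := Lam (P.J R)

lemma J_Fop {R : E} {m : ℝ} (h : Dom (P.J R) m) : P.J (P.Fop R m) = FF (P.J R) m := by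
  rw [Fop, map_sub, map_smul, P.hN _ _ h]
  rfl

lemma dom_Rop (x : E) {u : ℝ} (hu : 0 ≤ u) : Dom (P.J (P.Rop x)) (P.lam (P.Rop x) + u) := by
  rw [lam, J_Rop]
  exact dom_RR (P.bdd x) hu

lemma m0_ge (x : E) : P.lam (P.Rop x) ≤ P.m0 x := by
  rw [lam, J_Rop]
  exact Lam_RR_le_MM (P.bdd x)

lemma Fop_Rop (x : E) : P.Fop (P.Rop x) (P.m0 x) = x := by
  apply P.inj
  have h : Dom (P.J (P.Rop x)) (P.m0 x) := by
    have := P.dom_Rop x (u := P.m0 x - P.lam (P.Rop x)) (by linarith [P.m0_ge x])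
    rwa [add_sub_cancel] at this
  rw [P.J_Fop h, J_Rop]
  exact FF_RR (P.bdd x)

lemma Mop_Fop {R : E} {m : ℝ} (h : Dom (P.J R) m) : P.Mop (P.Fop R m) = P.Nop R m := by
  apply P.inj
  rw [P.hM, P.J_Fop h, P.hN _ _ h]
  funext k
  exact h.MM_FF k

lemma Rop_Fop {R : E} {m : ℝ} (h : Dom (P.J R) m) : P.Rop (P.Fop R m) = R := by
  rw [Rop, P.Mop_Fop h, Fop]
  abel

lemma m0_Fop {R : E} {m : ℝ} (h : Dom (P.J R) m) : P.m0 (P.Fop R m) = m := by
  rw [m0, P.J_Fop h, h.MM_FF]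
  rfl

/-- The map from the half space to the whole space. -/
noncomputable def hmap (p : E × ℝ) : E × ℝ :=
  (P.Fop (P.Rop p.1) (P.lam (P.Rop p.1) + min (P.m0 p.1 - P.lam (P.Rop p.1)) p.2),
    (P.m0 p.1 - P.lam (P.Rop p.1)) - p.2)

/-- The inverse map. -/
noncomputable def gmap (p : E × ℝ) : E × ℝ :=
  (P.Fop (P.Rop p.1) (P.m0 p.1 + max p.2 0), (P.m0 p.1 - P.lam (P.Rop p.1)) + max (-p.2) 0)

/-- The half space. -/
def half (E : Type u) : Set (E × ℝ) := {p | 0 ≤ p.2}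

lemma dom_h {p : E × ℝ} (hp : 0 ≤ p.2) : Dom (P.J (P.Rop p.1))
    (P.lam (P.Rop p.1) + min (P.m0 p.1 - P.lam (P.Rop p.1)) p.2) :=
  P.dom_Rop _ (le_min (by linarith [P.m0_ge p.1]) hp)

lemma dom_g (p : E × ℝ) : Dom (P.J (P.Rop p.1)) (P.m0 p.1 + max p.2 0) := by
  have := P.dom_Rop p.1 (u := P.m0 p.1 - P.lam (P.Rop p.1) + max p.2 0)
    (add_nonneg (by linarith [P.m0_ge p.1]) (le_max_right _ _))
  have e : P.lam (P.Rop p.1) + (P.m0 p.1 - P.lam (P.Rop p.1) + max p.2 0)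
      = P.m0 p.1 + max p.2 0 := by ring
  rwa [e] at this

lemma g_h {p : E × ℝ} (hp : 0 ≤ p.2) : P.gmap (P.hmap p) = p := by
  have hd := P.dom_h hp
  obtain ⟨x, y⟩ := p
  simp only at hp hd
  simp only [gmap, hmap]
  rw [P.Rop_Fop hd, P.m0_Fop hd]
  have h0 := P.m0_ge x
  set l := P.lam (P.Rop x)
  have e1 : l + min (P.m0 x - l) y + max (P.m0 x - l - y) 0 = P.m0 x := by
    rcases le_total (P.m0 x - l) y with h | h
    · rw [min_eq_left h, max_eq_right (by linarith)]; ring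
    · rw [min_eq_right h, max_eq_left (by linarith)]; ring
  have e2 : l + min (P.m0 x - l) y - l + max (-(P.m0 x - l - y)) 0 = y := by
    rcases le_total (P.m0 x - l) y with h | h
    · rw [min_eq_left h, max_eq_left (by linarith)]; ring
    · rw [min_eq_right h, max_eq_right (by linarith)]; ring
  rw [e1, e2, P.Fop_Rop]

lemma h_g (p : E × ℝ) : P.hmap (P.gmap p) = p := by
  have hd := P.dom_g p
  obtain ⟨x, b⟩ := p
  simp only at hd
  simp only [gmap, hmap]
  rw [P.Rop_Fop hd, P.m0_Fop hd]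
  have h0 := P.m0_ge x
  set l := P.lam (P.Rop x)
  have e1 : l + min (P.m0 x + max b 0 - l) (P.m0 x - l + max (-b) 0) = P.m0 x := by
    rcases le_total b 0 with h | h
    · rw [max_eq_right h, max_eq_left (by linarith), min_eq_left (by linarith)]; ring
    · rw [max_eq_left h, max_eq_right (by linarith), min_eq_right (by linarith)]; ring
  have e2 : P.m0 x + max b 0 - l - (P.m0 x - l + max (-b) 0) = b := by
    rcases le_total b 0 with h | h
    · rw [max_eq_right h, max_eq_left (by linarith)]; ring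
    · rw [max_eq_left h, max_eq_right (by linarith)]; ring
  rw [e1, e2, P.Fop_Rop]

lemma g_mem (p : E × ℝ) : P.gmap p ∈ half E := by
  have h0 := P.m0_ge p.1
  have := le_max_right (-p.2) 0
  change (0:ℝ) ≤ _
  simp only [gmap]
  linarith

/-! ### Homogeneity -/

lemma Mop_smul (x : E) {t : ℝ} (ht : 0 ≤ t) : P.Mop (t • x) = t • P.Mop x := by
  apply P.inj
  rw [P.hM, map_smul, map_smul, P.hM]
  funext k
  rw [MM_smul ht]
  rfl

lemma Rop_smul (x : E) {t : ℝ} (ht : 0 ≤ t) : P.Rop (t • x) = t • P.Rop x := by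
  rw [Rop, Rop, P.Mop_smul x ht, smul_sub, smul_comm]

lemma m0_smul (x : E) {t : ℝ} (ht : 0 ≤ t) : P.m0 (t • x) = t * P.m0 x := by
  rw [m0, m0, map_smul, MM_smul ht]

lemma lam_smul (x : E) {t : ℝ} (ht : 0 ≤ t) : P.lam (t • x) = t * P.lam x := by
  rw [lam, lam, map_smul, Lam_smul (P.bdd x) ht]

lemma Fop_smul {R : E} {m t : ℝ} (ht : 0 ≤ t) (h : Dom (P.J R) m)
    (h' : Dom (P.J (t • R)) (t * m)) : P.Fop (t • R) (t * m) = t • P.Fop R m := by
  apply P.inj
  rw [map_smul, P.J_Fop h, P.J_Fop h', map_smul]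
  funext k
  simp only [FF, NN_smul ht, Pi.smul_apply, smul_eq_mul]
  ring

lemma h_smul {p : E × ℝ} (hp : 0 ≤ p.2) {t : ℝ} (ht : 0 ≤ t) :
    P.hmap (t • p) = t • P.hmap p := by
  have hd := P.dom_h hp
  have hd' := P.dom_h (p := t • p) (mul_nonneg ht hp)
  obtain ⟨x, y⟩ := p
  simp only [hmap, Prod.smul_mk, smul_eq_mul] at hd hd' ⊢
  rw [P.Rop_smul x ht, P.m0_smul x ht, P.lam_smul _ ht] at hd' ⊢
  have e : t * P.lam (P.Rop x) + min (t * P.m0 x - t * P.lam (P.Rop x)) (t * y)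
      = t * (P.lam (P.Rop x) + min (P.m0 x - P.lam (P.Rop x)) y) := by
    rw [mul_add, ← mul_sub, mul_min_of_nonneg _ _ ht]
  rw [e] at hd' ⊢
  rw [P.Fop_smul ht hd hd']
  congr 1
  ring

lemma g_smul (p : E × ℝ) {t : ℝ} (ht : 0 ≤ t) :
    P.gmap (t • p) = t • P.gmap p := by
  have hd := P.dom_g p
  have hd' := P.dom_g (t • p)
  obtain ⟨x, y⟩ := p
  simp only [gmap, Prod.smul_mk, smul_eq_mul] at hd hd' ⊢
  rw [P.Rop_smul x ht, P.m0_smul x ht] at hd' ⊢
  rw [P.lam_smul _ ht]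
  have e : t * P.m0 x + max (t * y) 0 = t * (P.m0 x + max y 0) := by
    rw [mul_add, mul_max_of_nonneg _ _ ht, mul_zero]
  have e' : max (-(t * y)) 0 = t * max (-y) 0 := by
    rw [mul_max_of_nonneg _ _ ht, mul_zero]; congr 1; ring
  rw [e] at hd' ⊢
  rw [P.Fop_smul ht hd hd', e']
  congr 1
  ring

/-! ### Lipschitz estimates -/

lemma Rop_lip (x x' : E) : ‖P.Rop x - P.Rop x'‖ ≤ (2 * P.KM + 1) * ‖x - x'‖ := by
  have e : P.Rop x - P.Rop x' = (2 : ℝ) • (P.Mop x - P.Mop x') - (x - x') := by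
    rw [Rop, Rop, smul_sub]; abel
  rw [e]
  refine (norm_sub_le _ _).trans ?_
  rw [norm_smul, Real.norm_eq_abs, abs_of_nonneg (by norm_num : (0:ℝ) ≤ 2)]
  have := P.lipM x x'
  nlinarith [norm_nonneg (x - x')]

lemma J_sub_le (x x' : E) (k : ℕ) : |P.J x k - P.J x' k| ≤ ‖x - x'‖ := by
  have := P.bd (x - x') k
  rwa [map_sub] at this

lemma m0_lip (x x' : E) : |P.m0 x - P.m0 x'| ≤ ‖x - x'‖ :=
  MM_lip (P.bdd x) (P.bdd x') (P.J_sub_le x x') 0

lemma lam_lip (x x' : E) : |P.lam x - P.lam x'| ≤ ‖x - x'‖ :=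
  Lam_lip (P.bdd x) (P.bdd x') (P.J_sub_le x x')

lemma Fop_lip {R R' : E} {m m' : ℝ} (h : Dom (P.J R) m) (h' : Dom (P.J R') m') :
    ‖P.Fop R m - P.Fop R' m'‖ ≤ (2 * P.KM + 1) * (‖R - R'‖ + |m - m'|) := by
  have e : P.Fop R m - P.Fop R' m' = (2 : ℝ) • (P.Nop R m - P.Nop R' m') - (R - R') := by
    rw [Fop, Fop, smul_sub]; abel
  rw [e]
  refine (norm_sub_le _ _).trans ?_
  rw [norm_smul, Real.norm_eq_abs, abs_of_nonneg (by norm_num : (0:ℝ) ≤ 2)]
  have := P.lipN R m R' m' h h'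
  nlinarith [norm_nonneg (R - R'), abs_nonneg (m - m')]

lemma min_lip (a b a' b' : ℝ) : |min a b - min a' b'| ≤ |a - a'| + |b - b'| := by
  refine (abs_min_sub_min_le_max a b a' b').trans ?_
  exact max_le (le_add_of_nonneg_right (abs_nonneg _)) (le_add_of_nonneg_left (abs_nonneg _))

lemma max_lip (a b : ℝ) : |max a 0 - max b 0| ≤ |a - b| := by
  have := abs_max_sub_max_le_max a 0 b 0
  simpa using this

lemma h_lip {p q : E × ℝ} (hp : 0 ≤ p.2) (hq : 0 ≤ q.2) :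
    ‖P.hmap p - P.hmap q‖ ≤ ((2 * P.KM + 1) * (6 * P.KM + 6) + 10 * P.KM + 10) * ‖p - q‖ := by
  have hK := P.KM0
  have n1 : ‖p.1 - q.1‖ ≤ ‖p - q‖ := norm_fst_le (p - q)
  have n2 : |p.2 - q.2| ≤ ‖p - q‖ := norm_snd_le (p - q)
  have hR := P.Rop_lip p.1 q.1
  have hm := P.m0_lip p.1 q.1
  have hl := P.lam_lip (P.Rop p.1) (P.Rop q.1)
  set a := P.m0 p.1
  set a' := P.m0 q.1
  set l := P.lam (P.Rop p.1)
  set l' := P.lam (P.Rop q.1)
  have h0 := norm_nonneg (p - q)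
  have hR' : ‖P.Rop p.1 - P.Rop q.1‖ ≤ (2 * P.KM + 1) * ‖p - q‖ :=
    hR.trans (mul_le_mul_of_nonneg_left n1 (by positivity))
  have hl' : |l - l'| ≤ (2 * P.KM + 1) * ‖p - q‖ := hl.trans hR'
  have hm' : |a - a'| ≤ ‖p - q‖ := hm.trans n1
  have hal : |(a - l) - (a' - l')| ≤ (2 * P.KM + 2) * ‖p - q‖ := by
    have e : (a - l) - (a' - l') = (a - a') - (l - l') := by ring
    rw [e]
    refine (abs_sub _ _).trans ?_
    linarith
  have hmin := min_lip (a - l) p.2 (a' - l') q.2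
  have h1 : |(l + min (a - l) p.2) - (l' + min (a' - l') q.2)| ≤ (4 * P.KM + 4) * ‖p - q‖ := by
    have e : (l + min (a - l) p.2) - (l' + min (a' - l') q.2)
        = (l - l') + (min (a - l) p.2 - min (a' - l') q.2) := by ring
    rw [e]
    refine (abs_add_le _ _).trans ?_
    linarith
  have hF := P.Fop_lip (P.dom_h hp) (P.dom_h hq)
  rw [hmap, hmap, Prod.mk_sub_mk, Prod.norm_def]
  apply max_le
  · refine hF.trans ?_
    have : ‖P.Rop p.1 - P.Rop q.1‖ + |(l + min (a - l) p.2) - (l' + min (a' - l') q.2)|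
        ≤ (6 * P.KM + 6) * ‖p - q‖ := by linarith
    have h3 := mul_le_mul_of_nonneg_left this (show 0 ≤ 2 * P.KM + 1 by positivity)
    refine h3.trans ?_
    rw [← mul_assoc]
    apply mul_le_mul_of_nonneg_right _ h0
    linarith
  · simp only [Real.norm_eq_abs]
    have e : a - l - p.2 - (a' - l' - q.2) = ((a - l) - (a' - l')) - (p.2 - q.2) := by ring
    rw [e]
    refine (abs_sub _ _).trans ?_
    have h2 : |(a - l) - (a' - l')| + |p.2 - q.2| ≤ (2 * P.KM + 3) * ‖p - q‖ := by linarith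
    refine h2.trans (mul_le_mul_of_nonneg_right ?_ h0)
    nlinarith

lemma g_lip (p q : E × ℝ) :
    ‖P.gmap p - P.gmap q‖ ≤ ((2 * P.KM + 1) * (6 * P.KM + 6) + 10 * P.KM + 10) * ‖p - q‖ := by
  have hK := P.KM0
  have n1 : ‖p.1 - q.1‖ ≤ ‖p - q‖ := norm_fst_le (p - q)
  have n2 : |p.2 - q.2| ≤ ‖p - q‖ := norm_snd_le (p - q)
  have hR := P.Rop_lip p.1 q.1
  have hm := P.m0_lip p.1 q.1
  have hl := P.lam_lip (P.Rop p.1) (P.Rop q.1)
  set a := P.m0 p.1
  set a' := P.m0 q.1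
  set l := P.lam (P.Rop p.1)
  set l' := P.lam (P.Rop q.1)
  have h0 := norm_nonneg (p - q)
  have hR' : ‖P.Rop p.1 - P.Rop q.1‖ ≤ (2 * P.KM + 1) * ‖p - q‖ :=
    hR.trans (mul_le_mul_of_nonneg_left n1 (by positivity))
  have hl' : |l - l'| ≤ (2 * P.KM + 1) * ‖p - q‖ := hl.trans hR'
  have hm' : |a - a'| ≤ ‖p - q‖ := hm.trans n1
  have hmax := max_lip p.2 q.2
  have hmax' := max_lip (-p.2) (-q.2)
  have e0 : |(-p.2) - (-q.2)| = |p.2 - q.2| := by rw [abs_sub_comm, neg_sub_neg]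
  rw [e0] at hmax'
  have h1 : |(a + max p.2 0) - (a' + max q.2 0)| ≤ 2 * ‖p - q‖ := by
    have e : (a + max p.2 0) - (a' + max q.2 0) = (a - a') + (max p.2 0 - max q.2 0) := by ring
    rw [e]
    refine (abs_add_le _ _).trans ?_
    linarith
  have hF := P.Fop_lip (P.dom_g p) (P.dom_g q)
  rw [gmap, gmap, Prod.mk_sub_mk, Prod.norm_def]
  apply max_le
  · refine hF.trans ?_
    have : ‖P.Rop p.1 - P.Rop q.1‖ + |(a + max p.2 0) - (a' + max q.2 0)|
        ≤ (6 * P.KM + 6) * ‖p - q‖ := by nlinarith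
    have h3 := mul_le_mul_of_nonneg_left this (show 0 ≤ 2 * P.KM + 1 by positivity)
    refine h3.trans ?_
    rw [← mul_assoc]
    apply mul_le_mul_of_nonneg_right _ h0
    linarith
  · simp only [Real.norm_eq_abs]
    have e : a - l + max (-p.2) 0 - (a' - l' + max (-q.2) 0)
        = (a - a') + ((max (-p.2) 0 - max (-q.2) 0) - (l - l')) := by ring
    rw [e]
    refine (abs_add_le _ _).trans ?_
    have h2 := abs_sub (max (-p.2) 0 - max (-q.2) 0) (l - l')
    have h3 : |a - a'| + |max (-p.2) 0 - max (-q.2) 0 - (l - l')| ≤ (2 * P.KM + 3) * ‖p - q‖ := by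
      linarith
    refine h3.trans (mul_le_mul_of_nonneg_right ?_ h0)
    nlinarith

include P in
/-- The half space over `E` is bi-Lipschitz homeomorphic to the whole space. -/
theorem half_rel : HRel (half E) (Set.univ : Set (E × ℝ)) := by
  refine hrel_of_homogeneous P.hmap P.gmap
    (K := (2 * P.KM + 1) * (6 * P.KM + 6) + 10 * P.KM + 10)
    (by have := P.KM0; positivity) ?_ (fun _ _ _ _ => Set.mem_univ _) ?_
    (Set.mem_univ _) (fun v hv t ht => P.h_smul hv ht) (fun w _ t ht => P.g_smul w ht)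
    (fun _ _ => Set.mem_univ _) (fun w _ => P.g_mem w) (fun v hv => P.g_h hv)
    (fun w _ => P.h_g w) (fun v hv v' hv' => P.h_lip hv hv') (fun w _ w' _ => P.g_lip w w')
  · intro v hv t ht
    exact mul_nonneg ht hv
  · exact le_refl (0:ℝ)

end PSpace

end Pool.Agent.W2helper13.Sph
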