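import Mathlib
import Pool.Agent.W2helper13.Sph.PSp

/-!
# The discrete Pitman transform on `ℓ_∞`, `c_0` and `ℓ_1`
-/

set_option autoImplicit false

namespace Pool.Agent.W2helper13.Sph

open Filter Topology
open scoped ENNReal ZeroAtInfty

lemma NN_lip {R R' : ℕ → ℝ} {m m' δ : ℝ} (h : ∀ k, |R k - R' k| ≤ δ) (k : ℕ) :
    |NN R m k - NN R' m' k| ≤ max |m - m'| δ := by
  have hm : ∀ j, |mid R j - mid R' j| ≤ δ := by
    intro j
    have h1 := abs_le.1 (h j)
    have h2 := abs_le.1 (h (j + 1))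
    rw [mid, mid, abs_le]
    constructor <;> linarith [h1.1, h1.2, h2.1, h2.2]
  induction k with
  | zero => exact le_max_left _ _
  | succ k ih =>
    rw [NN, NN]
    refine (abs_min_sub_min_le_max _ _ _ _).trans (max_le ih ((hm k).trans (le_max_right _ _)))

lemma LL_of_tendsto {F : ℕ → ℝ} (hF : Bdd F) (h : Tendsto F atTop (𝓝 0)) : LL F = 0 := by
  have hm : Tendsto (mid F) atTop (𝓝 0) := by
    have h1 := (h.add (h.comp (tendsto_add_atTop_nat 1))).div_const 2
    rw [add_zero, zero_div] at h1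
    exact h1
  refine (isLS_mid hF).unique ⟨fun ε hε => ?_, fun ε hε => ?_⟩
  · exact hm.eventually_lt_const (by linarith)
  · exact (hm.eventually_const_lt (show 0 - ε < 0 by linarith)).frequently

lemma Lam_of_tendsto {R : ℕ → ℝ} (hR : Bdd R) (h : Tendsto R atTop (𝓝 0)) : Lam R = 0 := by
  have h1 : Tendsto (fun k => - R k) atTop (𝓝 0) := by simpa using h.neg
  rw [Lam, LL_of_tendsto hR.neg h1, neg_zero]

section linf

/-- The space `ℓ_∞`. -/
abbrev Linf := lp (fun _ : ℕ => ℝ) ∞

open Classical in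
/-- An element of `ℓ_∞` from a function (zero if the function is not bounded). -/
noncomputable def mkInf (f : ℕ → ℝ) : Linf :=
  if h : Bdd f then ⟨f, memℓp_infty ⟨h.choose, by
    rintro _ ⟨k, rfl⟩
    exact h.choose_spec k⟩⟩ else 0

lemma mkInf_apply {f : ℕ → ℝ} (h : Bdd f) (k : ℕ) : (mkInf f : ℕ → ℝ) k = f k := by
  rw [mkInf, dif_pos h]

/-- The Pitman transform acts on `ℓ_∞`. -/
noncomputable def pInf : PSpace Linf where
  J := { toFun := fun x k => x k
         map_add' := fun _ _ => rfl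
         map_smul' := fun _ _ => rfl }
  inj := fun x y h => lp.ext h
  bd := fun x k => lp.norm_apply_le_norm ENNReal.top_ne_zero x k
  Mop := fun x => mkInf (MM x)
  hM := by
    intro x
    funext k
    exact mkInf_apply (MM_bdd ⟨‖x‖, fun k => lp.norm_apply_le_norm ENNReal.top_ne_zero x k⟩) k
  KM := 1
  KM0 := zero_le_one
  lipM := by
    intro x y
    have hb : ∀ x : Linf, Bdd (x : ℕ → ℝ) := fun x =>
      ⟨‖x‖, fun k => lp.norm_apply_le_norm ENNReal.top_ne_zero x k⟩
    rw [one_mul]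
    refine lp.norm_le_of_forall_le (norm_nonneg _) fun k => ?_
    change |(mkInf (MM x) : ℕ → ℝ) k - (mkInf (MM y) : ℕ → ℝ) k| ≤ _
    rw [mkInf_apply (MM_bdd (hb x)), mkInf_apply (MM_bdd (hb y))]
    refine MM_lip (hb x) (hb y) (fun k => ?_) k
    exact lp.norm_apply_le_norm ENNReal.top_ne_zero (x - y) k
  Nop := fun R m => mkInf (NN R m)
  hN := by
    intro R m h
    funext k
    exact mkInf_apply h.NN_bdd k
  lipN := by
    intro R m R' m' h h'
    rw [one_mul]
    refine lp.norm_le_of_forall_le (add_nonneg (norm_nonneg _) (abs_nonneg _)) fun k => ?_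
    have h1 : Dom (R : ℕ → ℝ) m := h
    have h1' : Dom (R' : ℕ → ℝ) m' := h'
    change |(mkInf (NN R m) : ℕ → ℝ) k - (mkInf (NN R' m') : ℕ → ℝ) k| ≤ _
    rw [mkInf_apply h1.NN_bdd, mkInf_apply h1'.NN_bdd]
    refine (NN_lip (δ := ‖R - R'‖) (fun k => ?_) k).trans ?_
    · exact lp.norm_apply_le_norm ENNReal.top_ne_zero (R - R') k
    · exact max_le (le_add_of_nonneg_left (norm_nonneg _))
        (le_add_of_nonneg_right (abs_nonneg _))

end linf

section c0

/-- Tendsto to zero at infinity on `ℕ`. -/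
lemma cocompact_nat : cocompact ℕ = (atTop : Filter ℕ) := by
  rw [cocompact_eq_cofinite, Nat.cofinite_eq_atTop]

open Classical in
/-- An element of `c_0` from a function (zero if the function does not tend to zero). -/
noncomputable def mkZero (f : ℕ → ℝ) : C₀(ℕ, ℝ) :=
  if h : Tendsto f atTop (𝓝 0) then
    { toFun := f
      continuous_toFun := continuous_of_discreteTopology
      zero_at_infty' := by rw [cocompact_nat]; exact h } else 0

lemma mkZero_apply {f : ℕ → ℝ} (h : Tendsto f atTop (𝓝 0)) (k : ℕ) : mkZero f k = f k := by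
  rw [mkZero, dif_pos h]; rfl

lemma c0_tendsto (x : C₀(ℕ, ℝ)) : Tendsto (fun k => x k) atTop (𝓝 0) := by
  have := x.zero_at_infty'
  rw [cocompact_nat] at this
  exact this

lemma c0_apply_le (x : C₀(ℕ, ℝ)) (k : ℕ) : |x k| ≤ ‖x‖ := by
  rw [← ZeroAtInftyContinuousMap.norm_toBCF_eq_norm]
  exact x.toBCF.norm_coe_le_norm k

lemma c0_norm_le {x : C₀(ℕ, ℝ)} {C : ℝ} (hC : 0 ≤ C) (h : ∀ k, |x k| ≤ C) : ‖x‖ ≤ C := by
  rw [← ZeroAtInftyContinuousMap.norm_toBCF_eq_norm]
  exact (BoundedContinuousFunction.norm_le hC).2 h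

lemma c0_bdd (x : C₀(ℕ, ℝ)) : Bdd (fun k => x k) := ⟨‖x‖, c0_apply_le x⟩

lemma c0_MM (x : C₀(ℕ, ℝ)) : Tendsto (MM fun k => x k) atTop (𝓝 0) := by
  have := tendsto_MM (c0_bdd x)
  rwa [LL_of_tendsto (c0_bdd x) (c0_tendsto x)] at this

lemma c0_NN (x : C₀(ℕ, ℝ)) {m : ℝ} (h : Dom (fun k => x k) m) :
    Tendsto (NN (fun k => x k) m) atTop (𝓝 0) := by
  have := h.NN_tendsto
  rwa [Lam_of_tendsto (c0_bdd x) (c0_tendsto x)] at this

/-- The Pitman transform acts on `c_0`. -/
noncomputable def pZero : PSpace C₀(ℕ, ℝ) where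
  J := { toFun := fun x k => x k
         map_add' := fun _ _ => rfl
         map_smul' := fun _ _ => rfl }
  inj := fun x y h => by
    ext k
    exact congrFun h k
  bd := c0_apply_le
  Mop := fun x => mkZero (MM fun k => x k)
  hM := by
    intro x
    funext k
    exact mkZero_apply (c0_MM x) k
  KM := 1
  KM0 := zero_le_one
  lipM := by
    intro x y
    rw [one_mul]
    refine c0_norm_le (norm_nonneg _) fun k => ?_
    rw [ZeroAtInftyContinuousMap.sub_apply, mkZero_apply (c0_MM x), mkZero_apply (c0_MM y)]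
    exact MM_lip (c0_bdd x) (c0_bdd y) (fun k => c0_apply_le (x - y) k) k
  Nop := fun R m => mkZero (NN (fun k => R k) m)
  hN := by
    intro R m h
    funext k
    exact mkZero_apply (c0_NN R h) k
  lipN := by
    intro R m R' m' h h'
    rw [one_mul]
    refine c0_norm_le (add_nonneg (norm_nonneg _) (abs_nonneg _)) fun k => ?_
    rw [ZeroAtInftyContinuousMap.sub_apply, mkZero_apply (c0_NN R h), mkZero_apply (c0_NN R' h')]
    refine (NN_lip (δ := ‖R - R'‖) (fun k => c0_apply_le (R - R') k) k).trans ?_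
    exact max_le (le_add_of_nonneg_left (norm_nonneg _)) (le_add_of_nonneg_right (abs_nonneg _))

end c0

end Pool.Agent.W2helper13.Sph
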