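import Mathlib
import Pool.Agent.W2helper13.Sph.Inst

/-!
# The discrete Pitman transform on `ℓ_1`

The space `ℓ_1` is regarded as the space of null sequences `F` of bounded variation, `x` being the
sequence of the differences `F k - F (k+1)`.
-/

set_option autoImplicit false

namespace Pool.Agent.W2helper13.Sph

open Filter Topology Finset
open scoped ENNReal

/-- The space `ℓ_1`. -/
abbrev Lone := lp (fun _ : ℕ => ℝ) 1

lemma lone_summable (x : Lone) : Summable fun i => |(x : ℕ → ℝ) i| := by
  have := lp.memℓp x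
  rw [memℓp_gen_iff (by simp)] at this
  simpa using this

lemma lone_norm (x : Lone) : ‖x‖ = ∑' i, |(x : ℕ → ℝ) i| := by
  rw [lp.norm_eq_tsum_rpow (by simp)]
  simp

open Classical in
/-- An element of `ℓ_1` from a function (zero if the function is not absolutely summable). -/
noncomputable def mkOne (f : ℕ → ℝ) : Lone :=
  if h : Summable fun i => |f i| then ⟨f, by
    apply memℓp_gen
    simpa using h⟩ else 0

lemma mkOne_apply {f : ℕ → ℝ} (h : Summable fun i => |f i|) (k : ℕ) :
    (mkOne f : ℕ → ℝ) k = f k := by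
  rw [mkOne, dif_pos h]

lemma lone_summable' (x : Lone) : Summable (x : ℕ → ℝ) := (lone_summable x).of_abs

lemma lone_summable_shift (x : Lone) (k : ℕ) : Summable fun i => (x : ℕ → ℝ) (k + i) := by
  have := (summable_nat_add_iff k).2 (lone_summable' x)
  simpa [add_comm] using this

/-- The tail sums. -/
noncomputable def tails : Lone →ₗ[ℝ] (ℕ → ℝ) where
  toFun := fun x k => ∑' i, (x : ℕ → ℝ) (k + i)
  map_add' := by
    intro x y
    funext k
    simp only [lp.coeFn_add, Pi.add_apply]
    exact (lone_summable_shift x k).tsum_add (lone_summable_shift y k)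
  map_smul' := by
    intro c x
    funext k
    simp only [lp.coeFn_smul, Pi.smul_apply, smul_eq_mul, RingHom.id_apply]
    exact tsum_mul_left

lemma tails_succ (x : Lone) (k : ℕ) : tails x k = (x : ℕ → ℝ) k + tails x (k + 1) := by
  change ∑' i, (x : ℕ → ℝ) (k + i) = _ + ∑' i, (x : ℕ → ℝ) (k + 1 + i)
  rw [(lone_summable_shift x k).tsum_eq_zero_add]
  congr 1
  apply tsum_congr
  intro i
  rw [show k + (i + 1) = k + 1 + i by omega]

lemma tails_diff (x : Lone) (k : ℕ) : tails x k - tails x (k + 1) = (x : ℕ → ℝ) k := by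
  rw [tails_succ x k]; ring

lemma tails_tendsto (x : Lone) : Tendsto (tails x) atTop (𝓝 0) := by
  have := tendsto_sum_nat_add (x : ℕ → ℝ)
  refine this.congr fun k => ?_
  apply tsum_congr
  intro i
  rw [add_comm]

lemma tails_abs_le (x : Lone) (k : ℕ) : |tails x k| ≤ ‖x‖ := by
  rw [lone_norm]
  have h1 : Summable fun i => |(x : ℕ → ℝ) (k + i)| := by
    have := (summable_nat_add_iff k).2 (lone_summable x)
    simpa [add_comm] using this
  have h2 : |tails x k| ≤ ∑' i, |(x : ℕ → ℝ) (k + i)| := by
    have := norm_tsum_le_tsum_norm (f := fun i => (x : ℕ → ℝ) (k + i)) (by simpa using h1)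
    exact this
  have h3 : ∑' i, |(x : ℕ → ℝ) (k + i)| ≤ ∑' i, |(x : ℕ → ℝ) i| := by
    have := (lone_summable x).sum_add_tsum_nat_add k
    have h4 : ∑' i, |(x : ℕ → ℝ) (k + i)| = ∑' i, |(x : ℕ → ℝ) (i + k)| := by
      apply tsum_congr; intro i; rw [add_comm]
    have h5 : 0 ≤ ∑ i ∈ range k, |(x : ℕ → ℝ) i| := Finset.sum_nonneg fun _ _ => abs_nonneg _
    rw [h4]
    linarith
  exact h2.trans h3

lemma tails_bdd (x : Lone) : Bdd (tails x) := ⟨‖x‖, tails_abs_le x⟩

lemma tails_inj : Function.Injective tails := by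
  intro x y h
  apply lp.ext
  funext k
  rw [← tails_diff x k, ← tails_diff y k, h]

/-- The differences of a monotone null sequence. -/
lemma summable_diff {M : ℕ → ℝ} (hM : Antitone M) (h0 : ∀ k, 0 ≤ M k) :
    Summable fun i => |M i - M (i + 1)| := by
  refine summable_of_sum_range_le (c := M 0) (fun _ => abs_nonneg _) fun n => ?_
  have : ∀ i, |M i - M (i + 1)| = M i - M (i + 1) := fun i =>
    abs_of_nonneg (sub_nonneg.2 (hM (Nat.le_succ i)))
  simp only [this]
  rw [Finset.sum_range_sub']
  linarith [h0 n]

lemma tails_mkOne {M : ℕ → ℝ} (hM : Antitone M) (h : Tendsto M atTop (𝓝 0)) :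
    tails (mkOne fun i => M i - M (i + 1)) = M := by
  have h0 : ∀ k, 0 ≤ M k := fun k => hM.le_of_tendsto h k
  have hs := summable_diff hM h0
  have key : ∀ k, tails (mkOne fun i => M i - M (i + 1)) k - M k
      = tails (mkOne fun i => M i - M (i + 1)) 0 - M 0 := by
    intro k
    induction k with
    | zero => rfl
    | succ k ih =>
      rw [← ih]
      have h1 := tails_diff (mkOne fun i => M i - M (i + 1)) k
      rw [mkOne_apply hs] at h1
      linarith
  have h2 : Tendsto (fun k => tails (mkOne fun i => M i - M (i + 1)) k - M k) atTop (𝓝 (0 - 0)) :=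
    (tails_tendsto _).sub h
  simp only [key] at h2
  have h3 := tendsto_nhds_unique h2 tendsto_const_nhds
  funext k
  have := key k
  linarith

lemma max_between (a b a' b' : ℝ) :
    |(max a b - max a' b') - (b - b')| + |(a - a') - (max a b - max a' b')|
      ≤ |(a - a') - (b - b')| := by
  rcases le_total a b with h | h <;> rcases le_total a' b' with h' | h'
  · rw [max_eq_right h, max_eq_right h', sub_self, abs_zero, zero_add]
  · rw [max_eq_right h, max_eq_left h']
    rw [abs_of_nonpos (show (b - a') - (b - b') ≤ 0 by linarith),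
      abs_of_nonpos (show (a - a') - (b - a') ≤ 0 by linarith),
      abs_of_nonpos (show (a - a') - (b - b') ≤ 0 by linarith)]
    linarith
  · rw [max_eq_left h, max_eq_right h']
    rw [abs_of_nonneg (show 0 ≤ (a - b') - (b - b') by linarith),
      abs_of_nonneg (show 0 ≤ (a - a') - (a - b') by linarith),
      abs_of_nonneg (show 0 ≤ (a - a') - (b - b') by linarith)]
    linarith
  · rw [max_eq_left h, max_eq_left h', sub_self (a - a'), abs_zero, add_zero]

lemma min_between (a b a' b' : ℝ) :
    |(min a b - min a' b') - (b - b')| + |(a - a') - (min a b - min a' b')|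
      ≤ |(a - a') - (b - b')| := by
  rcases le_total a b with h | h <;> rcases le_total a' b' with h' | h'
  · rw [min_eq_left h, min_eq_left h', sub_self (a - a'), abs_zero, add_zero]
  · rw [min_eq_left h, min_eq_right h']
    rw [abs_of_nonpos (show (a - b') - (b - b') ≤ 0 by linarith),
      abs_of_nonpos (show (a - a') - (a - b') ≤ 0 by linarith),
      abs_of_nonpos (show (a - a') - (b - b') ≤ 0 by linarith)]
    linarith
  · rw [min_eq_right h, min_eq_left h']
    rw [abs_of_nonneg (show 0 ≤ (b - a') - (b - b') by linarith),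
      abs_of_nonneg (show 0 ≤ (a - a') - (b - a') by linarith),
      abs_of_nonneg (show 0 ≤ (a - a') - (b - b') by linarith)]
    linarith
  · rw [min_eq_right h, min_eq_right h', sub_self, abs_zero, zero_add]

/-- The variation of the difference of the midpoint sequences. -/
lemma mid_var (x y : Lone) (n : ℕ) :
    ∑ k ∈ range n, |(mid (tails x) k - mid (tails y) k)
      - (mid (tails x) (k + 1) - mid (tails y) (k + 1))| ≤ ‖x - y‖ := by
  have hs : ∀ n, ∑ k ∈ range n, |((x - y : Lone) : ℕ → ℝ) k| ≤ ‖x - y‖ := by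
    intro n
    rw [lone_norm]
    exact (lone_summable (x - y)).sum_le_tsum _ (fun _ _ => abs_nonneg _)
  have e : ∀ k, (mid (tails x) k - mid (tails y) k)
      - (mid (tails x) (k + 1) - mid (tails y) (k + 1))
      = (((x - y : Lone) : ℕ → ℝ) k + ((x - y : Lone) : ℕ → ℝ) (k + 1)) / 2 := by
    intro k
    rw [← tails_diff (x - y) k, ← tails_diff (x - y) (k + 1), map_sub]
    simp only [mid, Pi.sub_apply]
    ring
  have h1 : ∑ k ∈ range n, |((x - y : Lone) : ℕ → ℝ) (k + 1)| ≤ ‖x - y‖ := by
    refine le_trans ?_ (hs (n + 1))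
    rw [Finset.sum_range_succ']
    linarith [abs_nonneg (((x - y : Lone) : ℕ → ℝ) 0)]
  have h2 : ∀ k, |(mid (tails x) k - mid (tails y) k)
      - (mid (tails x) (k + 1) - mid (tails y) (k + 1))|
      ≤ |((x - y : Lone) : ℕ → ℝ) k| / 2 + |((x - y : Lone) : ℕ → ℝ) (k + 1)| / 2 := by
    intro k
    rw [e, abs_div, abs_two]
    have := abs_add_le (((x - y : Lone) : ℕ → ℝ) k) (((x - y : Lone) : ℕ → ℝ) (k + 1))
    linarith
  calc _ ≤ ∑ k ∈ range n, (|((x - y : Lone) : ℕ → ℝ) k| / 2
        + |((x - y : Lone) : ℕ → ℝ) (k + 1)| / 2) := Finset.sum_le_sum fun k _ => h2 k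
    _ = (∑ k ∈ range n, |((x - y : Lone) : ℕ → ℝ) k|) / 2
        + (∑ k ∈ range n, |((x - y : Lone) : ℕ → ℝ) (k + 1)|) / 2 := by
        rw [Finset.sum_add_distrib, Finset.sum_div, Finset.sum_div]
    _ ≤ ‖x - y‖ := by linarith [hs n]

lemma tails_sub_le (x y : Lone) (k : ℕ) : |tails x k - tails y k| ≤ ‖x - y‖ := by
  have := tails_abs_le (x - y) k
  rwa [map_sub] at this

lemma MM_var (x y : Lone) (n : ℕ) :
    ∑ k ∈ range n, |(MM (tails x) k - MM (tails y) k)
      - (MM (tails x) (k + 1) - MM (tails y) (k + 1))| ≤ ‖x - y‖ := by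
  have hx := tails_bdd x
  have hy := tails_bdd y
  -- the main estimate, with the remainder term
  have main : ∀ n, ∑ k ∈ range n, |(MM (tails x) k - MM (tails y) k)
      - (MM (tails x) (k + 1) - MM (tails y) (k + 1))|
      ≤ ‖x - y‖ + |(mid (tails x) n - mid (tails y) n) - (MM (tails x) n - MM (tails y) n)| := by
    intro n
    have h1 : ∀ n, ∑ k ∈ range n, |(MM (tails x) k - MM (tails y) k)
        - (MM (tails x) (k + 1) - MM (tails y) (k + 1))|
        + |(mid (tails x) 0 - mid (tails y) 0) - (MM (tails x) 0 - MM (tails y) 0)|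
        ≤ ∑ k ∈ range n, |(mid (tails x) k - mid (tails y) k)
          - (mid (tails x) (k + 1) - mid (tails y) (k + 1))|
        + |(mid (tails x) n - mid (tails y) n) - (MM (tails x) n - MM (tails y) n)| := by
      intro n
      induction n with
      | zero => simp
      | succ n ih =>
        rw [Finset.sum_range_succ, Finset.sum_range_succ]
        have h2 := max_between (mid (tails x) n) (MM (tails x) (n + 1)) (mid (tails y) n)
          (MM (tails y) (n + 1))
        rw [← MM_succ hx n, ← MM_succ hy n] at h2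
        have h3 : |(mid (tails x) n - mid (tails y) n)
            - (MM (tails x) (n + 1) - MM (tails y) (n + 1))|
            ≤ |(mid (tails x) n - mid (tails y) n)
              - (mid (tails x) (n + 1) - mid (tails y) (n + 1))|
            + |(mid (tails x) (n + 1) - mid (tails y) (n + 1))
              - (MM (tails x) (n + 1) - MM (tails y) (n + 1))| := abs_sub_le _ _ _
        linarith
    have := h1 n
    have h4 := mid_var x y n
    have h5 := abs_nonneg ((mid (tails x) 0 - mid (tails y) 0) - (MM (tails x) 0 - MM (tails y) 0))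
    linarith
  -- let the remainder tend to zero
  have hmid : ∀ x : Lone, Tendsto (mid (tails x)) atTop (𝓝 0) := by
    intro x
    have h1 := ((tails_tendsto x).add
      ((tails_tendsto x).comp (tendsto_add_atTop_nat 1))).div_const 2
    rw [add_zero, zero_div] at h1
    exact h1
  have hMM : ∀ x : Lone, Tendsto (MM (tails x)) atTop (𝓝 0) := by
    intro x
    have := tendsto_MM (tails_bdd x)
    rwa [LL_of_tendsto (tails_bdd x) (tails_tendsto x)] at this
  have hrem : Tendsto (fun n => ‖x - y‖ + |(mid (tails x) n - mid (tails y) n)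
      - (MM (tails x) n - MM (tails y) n)|) atTop (𝓝 (‖x - y‖ + |(0 - 0) - (0 - 0)|)) :=
    ((((hmid x).sub (hmid y)).sub ((hMM x).sub (hMM y))).abs).const_add _
  have hmono : Monotone fun n => ∑ k ∈ range n, |(MM (tails x) k - MM (tails y) k)
      - (MM (tails x) (k + 1) - MM (tails y) (k + 1))| := by
    intro a b hab
    exact Finset.sum_le_sum_of_subset_of_nonneg (Finset.range_mono hab) fun _ _ _ => abs_nonneg _
  have : ∀ m, ∑ k ∈ range n, |(MM (tails x) k - MM (tails y) k)
      - (MM (tails x) (k + 1) - MM (tails y) (k + 1))|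
      ≤ ‖x - y‖ + |(mid (tails x) (n + m) - mid (tails y) (n + m))
      - (MM (tails x) (n + m) - MM (tails y) (n + m))| := fun m =>
    (hmono (Nat.le_add_right n m)).trans (main (n + m))
  have h6 := ge_of_tendsto' (hrem.comp (tendsto_add_atTop_nat n)) (fun m => by
    have := this m
    simp only [Function.comp]
    rw [add_comm m n]
    exact this)
  simpa using h6

lemma NN_var (x y : Lone) (m m' : ℝ) (n : ℕ) :
    ∑ k ∈ range n, |(NN (tails x) m k - NN (tails y) m' k)
      - (NN (tails x) m (k + 1) - NN (tails y) m' (k + 1))| ≤ 2 * (‖x - y‖ + |m - m'|) := by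
  have h1 : ∀ n, ∑ k ∈ range n, |(NN (tails x) m k - NN (tails y) m' k)
        - (NN (tails x) m (k + 1) - NN (tails y) m' (k + 1))|
        + |(NN (tails x) m n - NN (tails y) m' n) - (mid (tails x) n - mid (tails y) n)|
        ≤ ∑ k ∈ range n, |(mid (tails x) k - mid (tails y) k)
          - (mid (tails x) (k + 1) - mid (tails y) (k + 1))|
        + |(m - m') - (mid (tails x) 0 - mid (tails y) 0)| := by
    intro n
    induction n with
    | zero => simp [NN]
    | succ n ih =>
      rw [Finset.sum_range_succ, Finset.sum_range_succ]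
      have h2 := min_between (NN (tails x) m n) (mid (tails x) n) (NN (tails y) m' n)
        (mid (tails y) n)
      rw [show min (NN (tails x) m n) (mid (tails x) n) = NN (tails x) m (n + 1) from rfl,
        show min (NN (tails y) m' n) (mid (tails y) n) = NN (tails y) m' (n + 1) from rfl] at h2
      have h3 : |(NN (tails x) m (n + 1) - NN (tails y) m' (n + 1))
          - (mid (tails x) (n + 1) - mid (tails y) (n + 1))|
          ≤ |(NN (tails x) m (n + 1) - NN (tails y) m' (n + 1))
              - (mid (tails x) n - mid (tails y) n)|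
          + |(mid (tails x) n - mid (tails y) n)
              - (mid (tails x) (n + 1) - mid (tails y) (n + 1))| := abs_sub_le _ _ _
      linarith
  have h4 := h1 n
  have h5 := mid_var x y n
  have h6 := abs_nonneg ((NN (tails x) m n - NN (tails y) m' n)
    - (mid (tails x) n - mid (tails y) n))
  have h7 : |(m - m') - (mid (tails x) 0 - mid (tails y) 0)| ≤ |m - m'| + ‖x - y‖ := by
    refine (abs_sub _ _).trans (add_le_add le_rfl ?_)
    have h1 := abs_le.1 (tails_sub_le x y 0)
    have h2 := abs_le.1 (tails_sub_le x y 1)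
    rw [mid, mid, abs_le]
    constructor <;> linarith [h1.1, h1.2, h2.1, h2.2]
  linarith [abs_nonneg (m - m')]

lemma MM_tails_tendsto (x : Lone) : Tendsto (MM (tails x)) atTop (𝓝 0) := by
  have := tendsto_MM (tails_bdd x)
  rwa [LL_of_tendsto (tails_bdd x) (tails_tendsto x)] at this

lemma NN_tails_tendsto (x : Lone) {m : ℝ} (h : Dom (tails x) m) :
    Tendsto (NN (tails x) m) atTop (𝓝 0) := by
  have := h.NN_tendsto
  rwa [Lam_of_tendsto (tails_bdd x) (tails_tendsto x)] at this

lemma norm_mkOne_sub {M M' : ℕ → ℝ} (hM : Antitone M) (h : Tendsto M atTop (𝓝 0))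
    (hM' : Antitone M') (h' : Tendsto M' atTop (𝓝 0)) {c : ℝ}
    (hc : ∀ n, ∑ k ∈ range n, |(M k - M' k) - (M (k + 1) - M' (k + 1))| ≤ c) :
    ‖mkOne (fun i => M i - M (i + 1)) - mkOne (fun i => M' i - M' (i + 1))‖ ≤ c := by
  have hs := summable_diff hM fun k => hM.le_of_tendsto h k
  have hs' := summable_diff hM' fun k => hM'.le_of_tendsto h' k
  rw [lone_norm]
  refine (lone_summable _).tsum_le_of_sum_range_le fun n => ?_
  refine le_trans (le_of_eq ?_) (hc n)
  apply Finset.sum_congr rfl
  intro k _
  rw [lp.coeFn_sub, Pi.sub_apply, mkOne_apply hs, mkOne_apply hs']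
  congr 1
  ring

/-- The Pitman transform acts on `ℓ_1`. -/
noncomputable def pOne : PSpace Lone where
  J := tails
  inj := tails_inj
  bd := tails_abs_le
  Mop := fun x => mkOne fun k => MM (tails x) k - MM (tails x) (k + 1)
  hM := fun x => tails_mkOne (MM_antitone (tails_bdd x)) (MM_tails_tendsto x)
  KM := 2
  KM0 := by norm_num
  lipM := by
    intro x y
    refine (norm_mkOne_sub (MM_antitone (tails_bdd x)) (MM_tails_tendsto x)
      (MM_antitone (tails_bdd y)) (MM_tails_tendsto y) (MM_var x y)).trans ?_
    linarith [norm_nonneg (x - y)]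
  Nop := fun R m => mkOne fun k => NN (tails R) m k - NN (tails R) m (k + 1)
  hN := fun R m h => tails_mkOne NN_antitone (NN_tails_tendsto R h)
  lipN := by
    intro R m R' m' h h'
    exact norm_mkOne_sub NN_antitone (NN_tails_tendsto R h) NN_antitone (NN_tails_tendsto R' h')
      (NN_var R R' m m')

end Pool.Agent.W2helper13.Sph
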