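import Mathlib
import Pool.Agent.W2helper13.Sph.InstOne

/-!
# Spheres and balls
-/

set_option autoImplicit false

namespace Pool.Agent.W2helper13.Sph

open Filter Topology
open scoped ENNReal ZeroAtInfty

universe u v w x

/-- Bi-Lipschitz homeomorphic subsets. -/
def BL {V : Type u} {W : Type v} [NormedAddCommGroup V] [NormedAddCommGroup W]
    (A : Set V) (B : Set W) : Prop :=
  ∃ (f : V → W) (g : W → V) (K : ℝ), 0 ≤ K ∧ (∀ v ∈ A, f v ∈ B) ∧ (∀ w ∈ B, g w ∈ A) ∧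
    (∀ v ∈ A, g (f v) = v) ∧ (∀ w ∈ B, f (g w) = w) ∧
    (∀ v ∈ A, ∀ v' ∈ A, ‖f v - f v'‖ ≤ K * ‖v - v'‖) ∧
    (∀ w ∈ B, ∀ w' ∈ B, ‖g w - g w'‖ ≤ K * ‖w - w'‖)

section

variable {V : Type u} {W : Type v} {U : Type w}
  [NormedAddCommGroup V] [NormedAddCommGroup W] [NormedAddCommGroup U]
  {A : Set V} {B : Set W} {C : Set U}

lemma BL.symm (h : BL A B) : BL B A := by
  obtain ⟨f, g, K, hK, h1, h2, h3, h4, h6, h7⟩ := h
  exact ⟨g, f, K, hK, h2, h1, h4, h3, h7, h6⟩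

lemma BL.trans (h : BL A B) (h' : BL B C) : BL A C := by
  obtain ⟨f, g, K, hK, h1, h2, h3, h4, h6, h7⟩ := h
  obtain ⟨f', g', K', hK', h1', h2', h3', h4', h6', h7'⟩ := h'
  refine ⟨f' ∘ f, g ∘ g', K' * K, by positivity, fun v hv => h1' _ (h1 v hv),
    fun w hw => h2 _ (h2' w hw), ?_, ?_, ?_, ?_⟩
  · intro v hv
    simp only [Function.comp]
    rw [h3' _ (h1 v hv), h3 v hv]
  · intro w hw
    simp only [Function.comp]
    rw [h4 _ (h2' w hw), h4' w hw]
  · intro v hv v' hv'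
    simp only [Function.comp]
    refine (h6' _ (h1 v hv) _ (h1 v' hv')).trans ?_
    rw [mul_assoc]
    exact mul_le_mul_of_nonneg_left (h6 v hv v' hv') hK'
  · intro w hw w' hw'
    simp only [Function.comp]
    refine (h7 _ (h2' w hw) _ (h2' w' hw')).trans ?_
    rw [mul_comm K' K, mul_assoc]
    exact mul_le_mul_of_nonneg_left (h7' w hw w' hw') hK

lemma HRel.sphere {A : Set V} {B : Set W} (h : HRel A B) :
    BL {v | v ∈ A ∧ ‖v‖ = 1} {w | w ∈ B ∧ ‖w‖ = 1} := by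
  obtain ⟨f, g, K, hK, h1, h2, h3, h4, h5, h6, h7⟩ := h
  refine ⟨f, g, K, hK, fun v hv => ⟨h1 v hv.1, by rw [h5 v hv.1, hv.2]⟩,
    fun w hw => ⟨h2 w hw.1, ?_⟩, fun v hv => h3 v hv.1, fun w hw => h4 w hw.1,
    fun v hv v' hv' => h6 v hv.1 v' hv'.1, fun v hv v' hv' => h7 v hv.1 v' hv'.1⟩
  rw [← h5 (g w) (h2 w hw.1), h4 w hw.1, hw.2]

lemma HRel.ball {A : Set V} {B : Set W} (h : HRel A B) :
    BL {v | v ∈ A ∧ ‖v‖ ≤ 1} {w | w ∈ B ∧ ‖w‖ ≤ 1} := by
  obtain ⟨f, g, K, hK, h1, h2, h3, h4, h5, h6, h7⟩ := h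
  refine ⟨f, g, K, hK, fun v hv => ⟨h1 v hv.1, by rw [h5 v hv.1]; exact hv.2⟩,
    fun w hw => ⟨h2 w hw.1, ?_⟩, fun v hv => h3 v hv.1, fun w hw => h4 w hw.1,
    fun v hv v' hv' => h6 v hv.1 v' hv'.1, fun v hv v' hv' => h7 v hv.1 v' hv'.1⟩
  rw [← h5 (g w) (h2 w hw.1), h4 w hw.1]
  exact hw.2

end

section hemisphere

variable {Y : Type u} [NormedAddCommGroup Y] [NormedSpace ℝ Y]

/-- The upper half of the unit sphere of `Y × ℝ` is bi-Lipschitz homeomorphic to the unit ball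
of `Y`. -/
lemma hemisphere : BL {p : Y × ℝ | 0 ≤ p.2 ∧ ‖p‖ = 1} {y : Y | ‖y‖ ≤ 1} := by
  have hn : ∀ p : Y × ℝ, ‖p‖ = max ‖p.1‖ |p.2| := fun p => rfl
  refine ⟨fun p => (1 - p.2 / 2) • p.1,
    fun y => ((max ‖y‖ (1 / 2))⁻¹ • y, min 1 (2 - 2 * ‖y‖)), 4, by norm_num, ?_, ?_, ?_, ?_, ?_, ?_⟩
  · rintro ⟨x, t⟩ ⟨h0, h1⟩
    simp only at h0
    rw [hn] at h1
    simp only at h1
    have hx : ‖x‖ ≤ 1 := h1 ▸ le_max_left _ _
    have ht : t ≤ 1 := (le_abs_self t).trans (h1 ▸ le_max_right _ _)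
    change ‖(1 - t / 2) • x‖ ≤ 1
    rw [norm_smul, Real.norm_eq_abs, abs_of_nonneg (by linarith)]
    nlinarith [norm_nonneg x]
  · intro y hy
    simp only [Set.mem_ofPred_eq] at hy
    change 0 ≤ min 1 (2 - 2 * ‖y‖) ∧ _
    refine ⟨le_min zero_le_one (by linarith), ?_⟩
    rw [hn]
    simp only
    rw [norm_smul, norm_inv, Real.norm_eq_abs, abs_of_nonneg (a := max ‖y‖ (1 / 2)) (by positivity),
      abs_of_nonneg (le_min zero_le_one (by linarith))]
    rcases le_total ‖y‖ (1 / 2) with h | h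
    · rw [max_eq_right h, min_eq_left (by linarith)]
      rw [max_eq_right]
      norm_num
      linarith
    · have hpos : 0 < ‖y‖ := by linarith
      rw [max_eq_left h, inv_mul_cancel₀ hpos.ne', max_eq_left]
      exact min_le_left _ _
  · rintro ⟨x, t⟩ ⟨h0, h1⟩
    simp only at h0
    rw [hn] at h1
    simp only at h1
    have hx : ‖x‖ ≤ 1 := h1 ▸ le_max_left _ _
    have ht : t ≤ 1 := (le_abs_self t).trans (h1 ▸ le_max_right _ _)
    rw [abs_of_nonneg h0] at h1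
    simp only
    rw [norm_smul, Real.norm_eq_abs, abs_of_nonneg (by linarith : 0 ≤ 1 - t / 2)]
    rcases ht.eq_or_lt with rfl | ht'
    · have e : (1 - 1 / 2 : ℝ) = 1 / 2 := by norm_num
      rw [e]
      rw [max_eq_right (by linarith), min_eq_left (by linarith), smul_smul]
      norm_num
    · have hx1 : ‖x‖ = 1 := by
        rcases max_choice ‖x‖ t with h | h
        · rw [h] at h1; exact h1
        · rw [h] at h1; linarith
      rw [hx1, mul_one, max_eq_left (by linarith), min_eq_right (by linarith), smul_smul,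
        inv_mul_cancel₀ (by linarith : (1 - t / 2) ≠ 0), one_smul]
      congr 1
      ring
  · intro y hy
    simp only [Set.mem_ofPred_eq] at hy
    simp only
    rcases le_total ‖y‖ (1 / 2) with h | h
    · rw [max_eq_right h, min_eq_left (by linarith), smul_smul]
      norm_num
    · have hpos : 0 < ‖y‖ := by linarith
      rw [max_eq_left h, min_eq_right (by linarith), smul_smul]
      have : (1 - (2 - 2 * ‖y‖) / 2) * ‖y‖⁻¹ = 1 := by
        field_simp
        ring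
      rw [this, one_smul]
  · rintro ⟨x, t⟩ ⟨h0, h1⟩ ⟨x', t'⟩ ⟨h0', h1'⟩
    simp only at h0 h0'
    rw [hn] at h1 h1'
    simp only at h1 h1'
    have ht : t ≤ 1 := (le_abs_self t).trans (h1 ▸ le_max_right _ _)
    have hx' : ‖x'‖ ≤ 1 := h1' ▸ le_max_left _ _
    have n1 : ‖x - x'‖ ≤ ‖((x, t) : Y × ℝ) - (x', t')‖ := norm_fst_le (((x, t) : Y × ℝ) - (x', t'))
    have n2 : |t - t'| ≤ ‖((x, t) : Y × ℝ) - (x', t')‖ := norm_snd_le (((x, t) : Y × ℝ) - (x', t'))
    have n0 := norm_nonneg (((x, t) : Y × ℝ) - (x', t'))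
    change ‖(1 - t / 2) • x - (1 - t' / 2) • x'‖ ≤ _
    have e : (1 - t / 2) • x - (1 - t' / 2) • x' = (1 - t / 2) • (x - x') + ((t' - t) / 2) • x' := by
      have h9 : ((t' - t) / 2) • x' = (1 - t / 2) • x' - (1 - t' / 2) • x' := by
        rw [← sub_smul]
        congr 1
        ring
      rw [smul_sub, h9]
      abel
    rw [e]
    refine (norm_add_le _ _).trans ?_
    rw [norm_smul, norm_smul, Real.norm_eq_abs, Real.norm_eq_abs, abs_of_nonneg (by linarith),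
      abs_div, abs_two, abs_sub_comm t' t]
    have h2 : (1 - t / 2) * ‖x - x'‖ ≤ 1 * ‖x - x'‖ :=
      mul_le_mul_of_nonneg_right (by linarith) (norm_nonneg _)
    have h3 : |t - t'| / 2 * ‖x'‖ ≤ |t - t'| / 2 * 1 :=
      mul_le_mul_of_nonneg_left hx' (by positivity)
    linarith
  · intro y hy y' hy'
    simp only [Set.mem_ofPred_eq] at hy hy'
    rw [Prod.mk_sub_mk, hn]
    have hd : |‖y‖ - ‖y'‖| ≤ ‖y - y'‖ := abs_norm_sub_norm_le y y'
    apply max_le
    · simp only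
      set a := max ‖y‖ (1 / 2)
      set b := max ‖y'‖ (1 / 2)
      have ha : 1 / 2 ≤ a := le_max_right _ _
      have hb : 1 / 2 ≤ b := le_max_right _ _
      have hyb : ‖y'‖ ≤ b := le_max_left _ _
      have hab : |a - b| ≤ ‖y - y'‖ := by
        refine (abs_max_sub_max_le_max _ _ _ _).trans ?_
        rw [sub_self, abs_zero]
        exact max_le hd (norm_nonneg _)
      have e : a⁻¹ • y - b⁻¹ • y' = a⁻¹ • (y - y') + ((b - a) * (a⁻¹ * b⁻¹)) • y' := by
        have : (b - a) * (a⁻¹ * b⁻¹) = a⁻¹ - b⁻¹ := by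
          have ha' : a ≠ 0 := by linarith
          have hb' : b ≠ 0 := by linarith
          field_simp
        rw [this, sub_smul, smul_sub]
        abel
      rw [e]
      refine (norm_add_le _ _).trans ?_
      have hinv : |a⁻¹| ≤ 2 := by
        rw [abs_of_nonneg (by positivity), inv_le_comm₀ (by linarith) (by norm_num)]
        linarith
      rw [norm_smul, norm_smul, Real.norm_eq_abs, Real.norm_eq_abs, abs_mul, abs_mul]
      have h1 : |b⁻¹| * ‖y'‖ ≤ 1 := by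
        rw [abs_of_nonneg (by positivity), inv_mul_le_iff₀ (by linarith)]
        linarith
      have h2 : |b - a| ≤ ‖y - y'‖ := by rw [abs_sub_comm]; exact hab
      calc |a⁻¹| * ‖y - y'‖ + |b - a| * (|a⁻¹| * |b⁻¹|) * ‖y'‖
          = |a⁻¹| * ‖y - y'‖ + |b - a| * |a⁻¹| * (|b⁻¹| * ‖y'‖) := by ring
        _ ≤ 2 * ‖y - y'‖ + (‖y - y'‖ * 2) * 1 := by
            apply add_le_add
            · exact mul_le_mul_of_nonneg_right hinv (norm_nonneg _)
            · apply mul_le_mul _ h1 (by positivity) (by positivity)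
              exact mul_le_mul h2 hinv (abs_nonneg _) (norm_nonneg _)
        _ = _ := by ring
    · simp only
      have : |min 1 (2 - 2 * ‖y‖) - min 1 (2 - 2 * ‖y'‖)| ≤ 2 * ‖y - y'‖ := by
        refine (abs_min_sub_min_le_max _ _ _ _).trans ?_
        rw [sub_self, abs_zero]
        refine max_le (by positivity) ?_
        have : 2 - 2 * ‖y‖ - (2 - 2 * ‖y'‖) = - (2 * (‖y‖ - ‖y'‖)) := by ring
        rw [this, abs_neg, abs_mul, abs_two]
        linarith
      linarith [norm_nonneg (y - y')]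

end hemisphere

section shift

variable {E : Type u} [NormedAddCommGroup E] [NormedSpace ℝ E]

/-- Spaces of sequences are isomorphic to their hyperplanes. -/
lemma shift_rel (c : E →ₗ[ℝ] (ℕ → ℝ)) (hc : Function.Injective c) (T : E → E)
    (hT : ∀ x k, c (T x) k = c x (k + 1)) (Q : E × ℝ → E) (hQ0 : ∀ p, c (Q p) 0 = p.2)
    (hQ : ∀ p k, c (Q p) (k + 1) = c p.1 k) (K : ℝ) (hK : 0 ≤ K) (hTb : ∀ x, ‖T x‖ ≤ K * ‖x‖)
    (hQb : ∀ p, ‖Q p‖ ≤ K * ‖p‖) (hc0 : ∀ x, |c x 0| ≤ K * ‖x‖) :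
    HRel (Set.univ : Set E) (Set.univ : Set (E × ℝ)) := by
  have hTs : ∀ x (t : ℝ), T (t • x) = t • T x := by
    intro x t
    apply hc; funext k
    rw [hT, map_smul, map_smul, Pi.smul_apply, Pi.smul_apply, hT]
  have hTa : ∀ x y, T x - T y = T (x - y) := by
    intro x y
    apply hc; funext k
    rw [map_sub, hT, Pi.sub_apply, hT, hT, map_sub]; rfl
  have hQs : ∀ p (t : ℝ), Q (t • p) = t • Q p := by
    intro x t
    apply hc; funext k
    cases k with
    | zero => rw [hQ0, map_smul, Pi.smul_apply, hQ0]; rfl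
    | succ k => rw [hQ, map_smul, Pi.smul_apply, hQ, Prod.smul_fst, map_smul]; rfl
  have hQa : ∀ p q, Q p - Q q = Q (p - q) := by
    intro x y
    apply hc; funext k
    cases k with
    | zero => rw [hQ0, map_sub, Pi.sub_apply, hQ0, hQ0]; rfl
    | succ k => rw [hQ, map_sub, Pi.sub_apply, hQ, hQ, Prod.fst_sub, map_sub]; rfl
  refine hrel_of_homogeneous (fun x => (T x, c x 0)) Q (K := K) hK
    (fun _ _ _ _ => Set.mem_univ _) (fun _ _ _ _ => Set.mem_univ _) (Set.mem_univ _)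
    (Set.mem_univ _) ?_ (fun w _ t _ => hQs w t)
    (fun _ _ => Set.mem_univ _) (fun _ _ => Set.mem_univ _) ?_ ?_ ?_ ?_
  · intro v _ t _
    rw [hTs, map_smul]; rfl
  · intro v _
    apply hc; funext k
    cases k with
    | zero => rw [hQ0]
    | succ k => rw [hQ, hT]
  · intro p _
    refine Prod.ext ?_ (hQ0 p)
    apply hc; funext k
    simp only
    rw [hT, hQ]
  · intro v _ v' _
    rw [Prod.mk_sub_mk, Prod.norm_def]
    refine max_le ?_ ?_
    · simp only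
      rw [hTa]; exact hTb _
    · simp only [Real.norm_eq_abs]
      have : c v 0 - c v' 0 = c (v - v') 0 := by rw [map_sub]; rfl
      rw [this]; exact hc0 _
  · intro v _ v' _
    rw [hQa]; exact hQb _

end shift

/-- Prepend a term to a sequence. -/
def cons (a : ℝ) (f : ℕ → ℝ) : ℕ → ℝ
  | 0 => a
  | k + 1 => f k

lemma shift_inf : HRel (Set.univ : Set Linf) (Set.univ : Set (Linf × ℝ)) := by
  have hb : ∀ x : Linf, ∀ k, |(x : ℕ → ℝ) k| ≤ ‖x‖ := fun x k =>
    lp.norm_apply_le_norm ENNReal.top_ne_zero x k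
  have hc : ∀ p : Linf × ℝ, ∀ k, |cons p.2 (p.1 : ℕ → ℝ) k| ≤ ‖p‖ := by
    intro p k
    cases k with
    | zero => exact norm_snd_le p
    | succ k => exact (hb p.1 k).trans (norm_fst_le p)
  refine shift_rel pInf.J pInf.inj (fun x => mkInf fun k => (x : ℕ → ℝ) (k + 1)) ?_
    (fun p => mkInf (cons p.2 (p.1 : ℕ → ℝ))) ?_ ?_ 1 zero_le_one ?_ ?_ ?_
  · intro x k
    exact mkInf_apply ⟨‖x‖, fun k => hb x (k + 1)⟩ k
  · intro p
    exact mkInf_apply ⟨‖p‖, hc p⟩ 0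
  · intro p k
    exact mkInf_apply ⟨‖p‖, hc p⟩ (k + 1)
  · intro x
    rw [one_mul]
    refine lp.norm_le_of_forall_le (norm_nonneg _) fun k => ?_
    rw [mkInf_apply ⟨‖x‖, fun k => hb x (k + 1)⟩]
    exact hb x (k + 1)
  · intro p
    rw [one_mul]
    refine lp.norm_le_of_forall_le (norm_nonneg _) fun k => ?_
    rw [mkInf_apply ⟨‖p‖, hc p⟩]
    exact hc p k
  · intro x
    rw [one_mul]
    exact hb x 0

lemma shift_zero : HRel (Set.univ : Set C₀(ℕ, ℝ)) (Set.univ : Set (C₀(ℕ, ℝ) × ℝ)) := by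
  have h1 : ∀ x : C₀(ℕ, ℝ), Tendsto (fun k => x (k + 1)) atTop (𝓝 0) := fun x =>
    (c0_tendsto x).comp (tendsto_add_atTop_nat 1)
  have h2 : ∀ p : C₀(ℕ, ℝ) × ℝ, Tendsto (cons p.2 fun k => p.1 k) atTop (𝓝 0) := by
    intro p
    rw [← tendsto_add_atTop_iff_nat 1]
    exact c0_tendsto p.1
  refine shift_rel pZero.J pZero.inj (fun x => mkZero fun k => x (k + 1)) ?_
    (fun p => mkZero (cons p.2 fun k => p.1 k)) ?_ ?_ 1 zero_le_one ?_ ?_ ?_
  · intro x k
    exact mkZero_apply (h1 x) k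
  · intro p
    exact mkZero_apply (h2 p) 0
  · intro p k
    exact mkZero_apply (h2 p) (k + 1)
  · intro x
    rw [one_mul]
    refine c0_norm_le (norm_nonneg _) fun k => ?_
    rw [mkZero_apply (h1 x)]
    exact c0_apply_le x _
  · intro p
    rw [one_mul]
    refine c0_norm_le (norm_nonneg _) fun k => ?_
    rw [mkZero_apply (h2 p)]
    cases k with
    | zero => exact norm_snd_le p
    | succ k => exact (c0_apply_le p.1 k).trans (norm_fst_le p)
  · intro x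
    rw [one_mul]
    exact c0_apply_le x 0

/-- The coordinates of an element of `ℓ_1`. -/
noncomputable def coordOne : Lone →ₗ[ℝ] (ℕ → ℝ) where
  toFun := fun x k => (x : ℕ → ℝ) k
  map_add' := fun _ _ => rfl
  map_smul' := fun _ _ => rfl

lemma shift_one : HRel (Set.univ : Set Lone) (Set.univ : Set (Lone × ℝ)) := by
  have h1 : ∀ x : Lone, Summable fun k => |(x : ℕ → ℝ) (k + 1)| := fun x =>
    (summable_nat_add_iff (f := fun k => |(x : ℕ → ℝ) k|) 1).2 (lone_summable x)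
  have h2 : ∀ p : Lone × ℝ, Summable fun k => |cons p.2 (p.1 : ℕ → ℝ) k| := by
    intro p
    rw [← summable_nat_add_iff 1]
    exact lone_summable p.1
  refine shift_rel coordOne (fun x y h => lp.ext h)
    (fun x => mkOne fun k => (x : ℕ → ℝ) (k + 1)) ?_
    (fun p => mkOne (cons p.2 (p.1 : ℕ → ℝ))) ?_ ?_ 2 (by norm_num) ?_ ?_ ?_
  · intro x k
    exact mkOne_apply (h1 x) k
  · intro p
    exact mkOne_apply (h2 p) 0
  · intro p k
    exact mkOne_apply (h2 p) (k + 1)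
  · intro x
    rw [lone_norm, lone_norm]
    simp only [mkOne_apply (h1 x)]
    rw [(lone_summable x).tsum_eq_zero_add]
    have : 0 ≤ ∑' k, |(x : ℕ → ℝ) (k + 1)| := tsum_nonneg fun _ => abs_nonneg _
    linarith [abs_nonneg ((x : ℕ → ℝ) 0)]
  · intro p
    rw [lone_norm]
    simp only [mkOne_apply (h2 p)]
    rw [(h2 p).tsum_eq_zero_add]
    have h3 : ∑' k, |cons p.2 (p.1 : ℕ → ℝ) (k + 1)| = ‖p.1‖ := by rw [lone_norm]; rfl
    rw [h3]
    have h4 : |cons p.2 (p.1 : ℕ → ℝ) 0| ≤ ‖p‖ := norm_snd_le p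
    linarith [norm_fst_le p]
  · intro x
    have : |(x : ℕ → ℝ) 0| ≤ ‖x‖ := by
      rw [lone_norm]
      exact (lone_summable x).le_tsum 0 fun _ _ => abs_nonneg _
    change |(x : ℕ → ℝ) 0| ≤ _
    linarith [norm_nonneg x]

/-- The main theorem, for a product `E × Z`. -/
theorem sphere_ball_prod {E : Type u} [NormedAddCommGroup E] [NormedSpace ℝ E] (P : PSpace E)
    (hs : HRel (Set.univ : Set E) (Set.univ : Set (E × ℝ)))
    (Z : Type v) [NormedAddCommGroup Z] [NormedSpace ℝ Z] :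
    BL {y : E × Z | ‖y‖ = 1} {y : E × Z | ‖y‖ ≤ 1} := by
  have r2 := (hs.prod Z).sphere
  have r3 := (P.half_rel.prod Z).sphere
  -- permutation of the factors
  have r4 : BL {v : (E × ℝ) × Z | v ∈ PSpace.half E ×ˢ (Set.univ : Set Z) ∧ ‖v‖ = 1}
      {p : (E × Z) × ℝ | 0 ≤ p.2 ∧ ‖p‖ = 1} := by
    have hn : ∀ (a : E) (b : ℝ) (c : Z), ‖(((a, c), b) : (E × Z) × ℝ)‖
        = ‖(((a, b), c) : (E × ℝ) × Z)‖ := by
      intro a b c
      simp only [Prod.norm_def]
      rw [max_assoc, max_comm ‖c‖ ‖b‖, ← max_assoc]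
    refine ⟨fun v => ((v.1.1, v.2), v.1.2), fun p => ((p.1.1, p.2), p.1.2), 1, zero_le_one,
      ?_, ?_, fun _ _ => rfl, fun _ _ => rfl, ?_, ?_⟩
    · rintro ⟨⟨a, b⟩, c⟩ ⟨⟨h1, -⟩, h2⟩
      exact ⟨h1, by rw [hn]; exact h2⟩
    · rintro ⟨⟨a, c⟩, b⟩ ⟨h1, h2⟩
      exact ⟨⟨h1, Set.mem_univ _⟩, by rw [hn] at h2; exact h2⟩
    · rintro ⟨⟨a, b⟩, c⟩ _ ⟨⟨a', b'⟩, c'⟩ _
      rw [one_mul]
      exact (hn (a - a') (b - b') (c - c')).le
    · rintro ⟨⟨a, b⟩, c⟩ _ ⟨⟨a', b'⟩, c'⟩ _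
      rw [one_mul]
      exact (hn (a - a') (c - c') (b - b')).ge
  have r5 := hemisphere (Y := E × Z)
  have e1 : {v : E × Z | v ∈ (Set.univ : Set E) ×ˢ (Set.univ : Set Z) ∧ ‖v‖ = 1}
      = {y : E × Z | ‖y‖ = 1} := by
    ext y; simp
  rw [e1] at r2
  exact ((r2.trans r3.symm).trans r4).trans r5

/-- The main theorem. -/
theorem sphere_ball {E : Type u} [NormedAddCommGroup E] [NormedSpace ℝ E] (P : PSpace E)
    (hs : HRel (Set.univ : Set E) (Set.univ : Set (E × ℝ)))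
    (X : Type v) [NormedAddCommGroup X] [NormedSpace ℝ X] (i : E →L[ℝ] X) (π : X →L[ℝ] E)
    (h : ∀ x, π (i x) = x) :
    BL {x : X | ‖x‖ = 1} {x : X | ‖x‖ ≤ 1} := by
  let T : X ≃L[ℝ] E × (LinearMap.ker (π : X →ₗ[ℝ] E)) :=
    ContinuousLinearEquiv.equivOfRightInverse π i h
  have r := hrel_of_linear T
  have r1 := r.sphere
  have r2 := r.ball
  simp only [Set.mem_univ, true_and] at r1 r2
  exact (r1.trans (sphere_ball_prod P hs _)).trans r2.symm

end Pool.Agent.W2helper13.Sph
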