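import Mathlib
import Pool.Agent.W2helper13.Sph.Fin

/-!
# The Mazur map
-/

set_option autoImplicit false

namespace Pool.Agent.W2helper13.Sph

open Filter Topology
open scoped ENNReal ZeroAtInfty

universe u v w x

/-- Uniformly homeomorphic subsets. -/
def UE {V : Type u} {W : Type v} [NormedAddCommGroup V] [NormedAddCommGroup W]
    (A : Set V) (B : Set W) : Prop :=
  ∃ (f : V → W) (g : W → V), (∀ v ∈ A, f v ∈ B) ∧ (∀ w ∈ B, g w ∈ A) ∧
    (∀ v ∈ A, g (f v) = v) ∧ (∀ w ∈ B, f (g w) = w) ∧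
    UniformContinuousOn f A ∧ UniformContinuousOn g B

section

variable {V : Type u} {W : Type v} {U : Type w}
  [NormedAddCommGroup V] [NormedAddCommGroup W] [NormedAddCommGroup U]
  {A : Set V} {B : Set W} {C : Set U}

lemma UE.symm (h : UE A B) : UE B A := by
  obtain ⟨f, g, h1, h2, h3, h4, h6, h7⟩ := h
  exact ⟨g, f, h2, h1, h4, h3, h7, h6⟩

lemma UE.trans (h : UE A B) (h' : UE B C) : UE A C := by
  obtain ⟨f, g, h1, h2, h3, h4, h6, h7⟩ := h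
  obtain ⟨f', g', h1', h2', h3', h4', h6', h7'⟩ := h'
  refine ⟨f' ∘ f, g ∘ g', fun v hv => h1' _ (h1 v hv),
    fun w hw => h2 _ (h2' w hw), ?_, ?_, ?_, ?_⟩
  · intro v hv
    simp only [Function.comp]
    rw [h3' _ (h1 v hv), h3 v hv]
  · intro w hw
    simp only [Function.comp]
    rw [h4 _ (h2' w hw), h4' w hw]
  · exact h6'.comp h6 h1
  · exact h7.comp h7' h2'

lemma uc_of_lip {f : V → W} {K : ℝ} (hK : 0 ≤ K)
    (h : ∀ v ∈ A, ∀ v' ∈ A, ‖f v - f v'‖ ≤ K * ‖v - v'‖) : UniformContinuousOn f A := by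
  rw [Metric.uniformContinuousOn_iff]
  intro ε hε
  refine ⟨ε / (K + 1), by positivity, fun a ha b hb hab => ?_⟩
  rw [dist_eq_norm] at hab ⊢
  refine (h a ha b hb).trans_lt ?_
  rw [lt_div_iff₀ (by positivity)] at hab
  nlinarith [norm_nonneg (a - b)]

lemma BL.toUE (h : BL A B) : UE A B := by
  obtain ⟨f, g, K, hK, h1, h2, h3, h4, h6, h7⟩ := h
  exact ⟨f, g, h1, h2, h3, h4, uc_of_lip hK h6, uc_of_lip hK h7⟩

end

section radial

variable {Z : Type u} [NormedAddCommGroup Z] [NormedSpace ℝ Z]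

/-- The radial power map. -/
noncomputable def psi (s : ℝ) (z : Z) : Z := (‖z‖ ^ (s - 1)) • z

lemma norm_psi {s : ℝ} (hs : 0 < s) (z : Z) : ‖psi s z‖ = ‖z‖ ^ s := by
  rw [psi, norm_smul, Real.norm_eq_abs, abs_of_nonneg (by positivity)]
  rcases eq_or_ne z 0 with rfl | h
  · rw [norm_zero, mul_zero, Real.zero_rpow hs.ne']
  · have hz : 0 < ‖z‖ := norm_pos_iff.2 h
    nth_rewrite 2 [← Real.rpow_one ‖z‖]
    rw [← Real.rpow_add hz]
    congr 1
    ring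

lemma psi_psi {s : ℝ} (hs : 0 < s) (z : Z) : psi (1 / s) (psi s z) = z := by
  rw [psi, norm_psi hs, psi, smul_smul]
  rcases eq_or_ne z 0 with rfl | h
  · simp
  · have hz : 0 < ‖z‖ := norm_pos_iff.2 h
    rw [← Real.rpow_mul hz.le, ← Real.rpow_add hz]
    have : s * (1 / s - 1) + (s - 1) = 0 := by
      field_simp
      ring
    rw [this, Real.rpow_zero, one_smul]

/-- Hölder estimate for exponents at most one. -/
lemma psi_holder {θ : ℝ} (h0 : 0 < θ) (h1 : θ ≤ 1) (z w : Z) :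
    ‖psi θ z - psi θ w‖ ≤ 3 * ‖z - w‖ ^ θ := by
  wlog hzw : ‖w‖ ≤ ‖z‖ generalizing z w
  · have := this w z (le_of_not_ge hzw)
    rwa [norm_sub_rev, norm_sub_rev w z] at this
  rcases eq_or_ne z 0 with rfl | hz
  · have : w = 0 := by
      rw [norm_zero] at hzw
      exact norm_le_zero_iff.1 hzw
    subst this
    simp only [psi, smul_zero, sub_self, norm_zero]
    positivity
  have hz' : 0 < ‖z‖ := norm_pos_iff.2 hz
  have e : psi θ z - psi θ w = (‖z‖ ^ (θ - 1)) • (z - w) + (‖z‖ ^ (θ - 1) - ‖w‖ ^ (θ - 1)) • w := by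
    rw [psi, psi, smul_sub, sub_smul]; abel
  rw [e]
  refine (norm_add_le _ _).trans ?_
  rw [norm_smul, norm_smul, Real.norm_eq_abs, Real.norm_eq_abs, abs_of_nonneg (by positivity)]
  have h2 : ‖z‖ ^ (θ - 1) * ‖z - w‖ ≤ 2 * ‖z - w‖ ^ θ := by
    rcases eq_or_ne (z - w) 0 with h | h
    · rw [h, norm_zero, mul_zero]
      positivity
    · have hd : 0 < ‖z - w‖ := norm_pos_iff.2 h
      have h3 : ‖z - w‖ ≤ 2 * ‖z‖ := (norm_sub_le _ _).trans (by linarith)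
      have h4 : ‖z‖ ^ (θ - 1) ≤ (‖z - w‖ / 2) ^ (θ - 1) :=
        Real.rpow_le_rpow_of_nonpos (by positivity) (by linarith) (by linarith)
      have h5 : (‖z - w‖ / 2) ^ (θ - 1) ≤ 2 * ‖z - w‖ ^ (θ - 1) := by
        rw [Real.div_rpow hd.le (by norm_num), div_le_iff₀ (by positivity)]
        have h6 : (1 : ℝ) ≤ 2 * 2 ^ (θ - 1) := by
          have : (2 : ℝ) * 2 ^ (θ - 1) = 2 ^ θ := by
            nth_rewrite 1 [← Real.rpow_one 2]
            rw [← Real.rpow_add (by norm_num)]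
            congr 1; ring
          rw [this]
          exact Real.one_le_rpow (by norm_num) h0.le
        have h7 : 0 ≤ ‖z - w‖ ^ (θ - 1) := by positivity
        nlinarith
      have h8 : ‖z - w‖ ^ (θ - 1) * ‖z - w‖ = ‖z - w‖ ^ θ := by
        nth_rewrite 2 [← Real.rpow_one ‖z - w‖]
        rw [← Real.rpow_add hd]
        congr 1; ring
      calc _ ≤ (2 * ‖z - w‖ ^ (θ - 1)) * ‖z - w‖ :=
            mul_le_mul_of_nonneg_right (h4.trans h5) hd.le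
        _ = 2 * (‖z - w‖ ^ (θ - 1) * ‖z - w‖) := by ring
        _ = _ := by rw [h8]
  have h3 : |‖z‖ ^ (θ - 1) - ‖w‖ ^ (θ - 1)| * ‖w‖ ≤ ‖z - w‖ ^ θ := by
    rcases eq_or_ne w 0 with rfl | hw
    · rw [norm_zero, mul_zero]; positivity
    · have hw' : 0 < ‖w‖ := norm_pos_iff.2 hw
      have h4 : ‖z‖ ^ (θ - 1) ≤ ‖w‖ ^ (θ - 1) :=
        Real.rpow_le_rpow_of_nonpos hw' hzw (by linarith)
      rw [abs_of_nonpos (by linarith)]
      have h5 : ‖w‖ ^ (θ - 1) * ‖w‖ = ‖w‖ ^ θ := by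
        nth_rewrite 2 [← Real.rpow_one ‖w‖]
        rw [← Real.rpow_add hw']
        congr 1; ring
      have h6 : ‖z‖ ^ θ = ‖z‖ ^ (θ - 1) * ‖z‖ := by
        nth_rewrite 3 [← Real.rpow_one ‖z‖]
        rw [← Real.rpow_add hz']
        congr 1; ring
      have h7 : ‖w‖ ^ θ ≤ ‖z‖ ^ θ := Real.rpow_le_rpow hw'.le hzw h0.le
      have h8 : 0 ≤ ‖z‖ - ‖w‖ := by linarith
      -- `(‖z‖ - ‖w‖) ‖z‖^(θ-1) ≤ (‖z‖ - ‖w‖)^θ`
      have h9 : ‖z‖ ^ (θ - 1) * (‖z‖ - ‖w‖) ≤ (‖z‖ - ‖w‖) ^ θ := by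
        rcases h8.eq_or_lt with h | h
        · rw [← h, mul_zero]; positivity
        · have h10 : ‖z‖ ^ (θ - 1) ≤ (‖z‖ - ‖w‖) ^ (θ - 1) :=
            Real.rpow_le_rpow_of_nonpos h (by linarith) (by linarith)
          have h11 : (‖z‖ - ‖w‖) ^ (θ - 1) * (‖z‖ - ‖w‖) = (‖z‖ - ‖w‖) ^ θ := by
            nth_rewrite 2 [← Real.rpow_one (‖z‖ - ‖w‖)]
            rw [← Real.rpow_add h]
            congr 1; ring
          rw [← h11]
          exact mul_le_mul_of_nonneg_right h10 h8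
      have h12 : (‖z‖ - ‖w‖) ^ θ ≤ ‖z - w‖ ^ θ :=
        Real.rpow_le_rpow h8 (norm_sub_norm_le z w) h0.le
      calc -(‖z‖ ^ (θ - 1) - ‖w‖ ^ (θ - 1)) * ‖w‖
          = ‖w‖ ^ (θ - 1) * ‖w‖ - ‖z‖ ^ (θ - 1) * ‖w‖ := by ring
        _ = ‖w‖ ^ θ - ‖z‖ ^ (θ - 1) * ‖w‖ := by rw [h5]
        _ ≤ ‖z‖ ^ (θ - 1) * ‖z‖ - ‖z‖ ^ (θ - 1) * ‖w‖ := by rw [← h6]; linarith
        _ = ‖z‖ ^ (θ - 1) * (‖z‖ - ‖w‖) := by ring
        _ ≤ _ := h9.trans h12
  linarith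

lemma rpow_sub_le {p a b : ℝ} (hp : 1 ≤ p) (hb : 0 ≤ b) (hab : b ≤ a) :
    a ^ p - b ^ p ≤ p * a ^ (p - 1) * (a - b) := by
  rcases (hb.trans hab).eq_or_lt with ha | ha
  · have hb' : b = 0 := by linarith
    rw [← ha, hb', sub_self, sub_self, mul_zero]
  · have h1 := one_add_mul_self_le_rpow_one_add (s := b / a - 1) (by
      have : 0 ≤ b / a := by positivity
      linarith) hp
    have e : 1 + (b / a - 1) = b / a := by ring
    rw [e, Real.div_rpow hb ha.le, le_div_iff₀ (by positivity)] at h1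
    have h2 : a ^ p = a ^ (p - 1) * a := by
      nth_rewrite 3 [← Real.rpow_one a]
      rw [← Real.rpow_add ha]
      congr 1; ring
    rw [h2] at h1 ⊢
    have h3 : (1 + p * (b / a - 1)) * (a ^ (p - 1) * a) = a ^ (p - 1) * a - p * a ^ (p - 1) * (a - b) := by
      field_simp
      ring
    rw [h3] at h1
    linarith

/-- Estimate for exponents at least one. -/
lemma psi_lip {p : ℝ} (hp : 1 ≤ p) (z w : Z) :
    ‖psi p z - psi p w‖ ≤ (1 + p) * (‖z‖ ^ (p - 1) + ‖w‖ ^ (p - 1)) * ‖z - w‖ := by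
  wlog hzw : ‖w‖ ≤ ‖z‖ generalizing z w
  · have := this w z (le_of_not_ge hzw)
    rw [norm_sub_rev, norm_sub_rev w z, add_comm (‖w‖ ^ (p - 1))] at this
    exact this
  have e : psi p z - psi p w = (‖z‖ ^ (p - 1)) • (z - w) + (‖z‖ ^ (p - 1) - ‖w‖ ^ (p - 1)) • w := by
    rw [psi, psi, smul_sub, sub_smul]; abel
  rw [e]
  refine (norm_add_le _ _).trans ?_
  rw [norm_smul, norm_smul, Real.norm_eq_abs, Real.norm_eq_abs, abs_of_nonneg (by positivity)]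
  have h4 : ‖w‖ ^ (p - 1) ≤ ‖z‖ ^ (p - 1) := Real.rpow_le_rpow (norm_nonneg _) hzw (by linarith)
  rw [abs_of_nonneg (by linarith)]
  have h6 : (‖z‖ ^ (p - 1) - ‖w‖ ^ (p - 1)) * ‖w‖ ≤ p * ‖z‖ ^ (p - 1) * ‖z - w‖ := by
    have h7 : ‖w‖ ^ (p - 1) * ‖w‖ = ‖w‖ ^ p := by
      rcases eq_or_ne w 0 with rfl | hw
      · rw [norm_zero, mul_zero, Real.zero_rpow (by linarith)]
      · nth_rewrite 2 [← Real.rpow_one ‖w‖]
        rw [← Real.rpow_add (norm_pos_iff.2 hw)]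
        congr 1; ring
    have h8 : ‖z‖ ^ (p - 1) * ‖z‖ = ‖z‖ ^ p := by
      rcases eq_or_ne z 0 with rfl | hw
      · rw [norm_zero, mul_zero, Real.zero_rpow (by linarith)]
      · nth_rewrite 2 [← Real.rpow_one ‖z‖]
        rw [← Real.rpow_add (norm_pos_iff.2 hw)]
        congr 1; ring
    have h9 := rpow_sub_le hp (norm_nonneg w) hzw
    have h10 : ‖z‖ - ‖w‖ ≤ ‖z - w‖ := norm_sub_norm_le z w
    have h11 : 0 ≤ ‖z‖ ^ (p - 1) := by positivity
    have h12 : (‖z‖ ^ (p - 1) - ‖w‖ ^ (p - 1)) * ‖w‖ ≤ ‖z‖ ^ p - ‖w‖ ^ p := by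
      rw [sub_mul, h7, ← h8]
      have := mul_le_mul_of_nonneg_left hzw h11
      linarith
    have h13 : p * ‖z‖ ^ (p - 1) * (‖z‖ - ‖w‖) ≤ p * ‖z‖ ^ (p - 1) * ‖z - w‖ :=
      mul_le_mul_of_nonneg_left h10 (by positivity)
    linarith
  have h14 : 0 ≤ (1 + p) * ‖w‖ ^ (p - 1) * ‖z - w‖ := by positivity
  calc _ ≤ ‖z‖ ^ (p - 1) * ‖z - w‖ + p * ‖z‖ ^ (p - 1) * ‖z - w‖ := by linarith
    _ = (1 + p) * ‖z‖ ^ (p - 1) * ‖z - w‖ := by ring
    _ ≤ _ := by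
      have : (1 + p) * (‖z‖ ^ (p - 1) + ‖w‖ ^ (p - 1)) * ‖z - w‖
        = (1 + p) * ‖z‖ ^ (p - 1) * ‖z - w‖ + (1 + p) * ‖w‖ ^ (p - 1) * ‖z - w‖ := by ring
      linarith

/-- A form of Young's inequality. -/
lemma young {p a b η : ℝ} (hp : 1 ≤ p) (ha : 0 ≤ a) (hb : 0 ≤ b) (hη : 0 < η) :
    a ^ (p - 1) * b ≤ η * a ^ p + η ^ (1 - p) * b ^ p := by
  have e : ∀ c : ℝ, 0 ≤ c → c ^ (p - 1) * c = c ^ p := by
    intro c hc
    rcases hc.eq_or_lt with rfl | hc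
    · rw [mul_zero, Real.zero_rpow (by linarith)]
    · nth_rewrite 2 [← Real.rpow_one c]
      rw [← Real.rpow_add hc]
      congr 1; ring
  rcases le_total b (η * a) with h | h
  · have h1 : a ^ (p - 1) * b ≤ a ^ (p - 1) * (η * a) :=
      mul_le_mul_of_nonneg_left h (by positivity)
    have h2 : a ^ (p - 1) * (η * a) = η * a ^ p := by rw [← e a ha]; ring
    have h3 : 0 ≤ η ^ (1 - p) * b ^ p := by positivity
    linarith
  · have h1 : (η * a) ^ (p - 1) ≤ b ^ (p - 1) :=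
      Real.rpow_le_rpow (by positivity) h (by linarith)
    rw [Real.mul_rpow hη.le ha] at h1
    have h2 : a ^ (p - 1) ≤ η ^ (1 - p) * b ^ (p - 1) := by
      have h3 : η ^ (1 - p) * η ^ (p - 1) = 1 := by
        rw [← Real.rpow_add hη]
        simp
      calc a ^ (p - 1) = η ^ (1 - p) * (η ^ (p - 1) * a ^ (p - 1)) := by
            rw [← mul_assoc, h3, one_mul]
        _ ≤ _ := mul_le_mul_of_nonneg_left h1 (by positivity)
    have h3 : 0 ≤ η * a ^ p := by positivity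
    calc a ^ (p - 1) * b ≤ (η ^ (1 - p) * b ^ (p - 1)) * b := mul_le_mul_of_nonneg_right h2 hb
      _ = η ^ (1 - p) * b ^ p := by rw [mul_assoc, e b hb]
      _ ≤ _ := by linarith

end radial

end Pool.Agent.W2helper13.Sph
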