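import Mathlib
import Pool.Agent.W2helper13.Sph.Mazur

/-!
# The Mazur map between `ℓ_p` and `ℓ_1`
-/

set_option autoImplicit false

namespace Pool.Agent.W2helper13.Sph

open Filter Topology
open scoped ENNReal ZeroAtInfty

universe u v w x

section lp

variable {p : ℝ≥0∞} [Fact (1 ≤ p)]

/-- The space `ℓ_p`. -/
abbrev Lp' (p : ℝ≥0∞) := lp (fun _ : ℕ => ℝ) p

lemma toReal_ge (hp : p ≠ ∞) : 1 ≤ p.toReal := by
  have h : 1 ≤ p := Fact.out
  have := ENNReal.toReal_mono hp h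
  simpa using this

lemma lp_summable (hp : p ≠ ∞) (x : Lp' p) : Summable fun i => |(x : ℕ → ℝ) i| ^ p.toReal := by
  have h0 : 0 < p.toReal := by linarith [toReal_ge hp]
  have := lp.memℓp x
  rw [memℓp_gen_iff h0] at this
  exact this

lemma lp_norm (hp : p ≠ ∞) (x : Lp' p) : ‖x‖ ^ p.toReal = ∑' i, |(x : ℕ → ℝ) i| ^ p.toReal := by
  have h0 : 0 < p.toReal := by linarith [toReal_ge hp]
  exact lp.norm_rpow_eq_tsum h0 x

open Classical in
/-- An element of `ℓ_p` from a function (zero if the function is not `p`-summable). -/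
noncomputable def mkLp (p : ℝ≥0∞) (f : ℕ → ℝ) : Lp' p :=
  if h : 0 < p.toReal ∧ Summable fun i => |f i| ^ p.toReal then ⟨f, (memℓp_gen_iff h.1).2 h.2⟩ else 0

lemma mkLp_apply (hp : p ≠ ∞) {f : ℕ → ℝ} (h : Summable fun i => |f i| ^ p.toReal) (k : ℕ) :
    (mkLp p f : ℕ → ℝ) k = f k := by
  have h0 : 0 < p.toReal := by linarith [toReal_ge hp]
  rw [mkLp, dif_pos ⟨h0, h⟩]

lemma abs_psi {s : ℝ} (hs : 0 < s) (a : ℝ) : |psi s a| = |a| ^ s := norm_psi hs a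

/-- The Mazur map `ℓ_p → ℓ_1`. -/
noncomputable def maz (p : ℝ≥0∞) (x : Lp' p) : Lone := mkOne fun i => psi p.toReal ((x : ℕ → ℝ) i)

/-- The Mazur map `ℓ_1 → ℓ_p`. -/
noncomputable def mazInv (p : ℝ≥0∞) (y : Lone) : Lp' p :=
  mkLp p fun i => psi (1 / p.toReal) ((y : ℕ → ℝ) i)

lemma maz_apply (hp : p ≠ ∞) (x : Lp' p) (k : ℕ) :
    (maz p x : ℕ → ℝ) k = psi p.toReal ((x : ℕ → ℝ) k) := by
  have h0 : 0 < p.toReal := by linarith [toReal_ge hp]
  apply mkOne_apply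
  simp only [abs_psi h0]
  exact lp_summable hp x

lemma mazInv_summable (hp : p ≠ ∞) (y : Lone) :
    Summable fun i => |psi (1 / p.toReal) ((y : ℕ → ℝ) i)| ^ p.toReal := by
  have h0 : 0 < p.toReal := by linarith [toReal_ge hp]
  have e : ∀ i, |psi (1 / p.toReal) ((y : ℕ → ℝ) i)| ^ p.toReal = |(y : ℕ → ℝ) i| := by
    intro i
    rw [abs_psi (by positivity), ← Real.rpow_mul (abs_nonneg _), one_div_mul_cancel h0.ne',
      Real.rpow_one]
  simp only [e]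
  exact lone_summable y

lemma mazInv_apply (hp : p ≠ ∞) (y : Lone) (k : ℕ) :
    (mazInv p y : ℕ → ℝ) k = psi (1 / p.toReal) ((y : ℕ → ℝ) k) :=
  mkLp_apply hp (mazInv_summable hp y) k

lemma norm_maz (hp : p ≠ ∞) (x : Lp' p) : ‖maz p x‖ = ‖x‖ ^ p.toReal := by
  have h0 : 0 < p.toReal := by linarith [toReal_ge hp]
  rw [lone_norm, lp_norm hp]
  apply tsum_congr
  intro i
  rw [maz_apply hp, abs_psi h0]

lemma psi_psi' {s : ℝ} (hs : 0 < s) (a : ℝ) : psi s (psi (1 / s) a) = a := by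
  have := psi_psi (s := 1 / s) (by positivity) a
  rwa [one_div_one_div] at this

lemma mazInv_maz (hp : p ≠ ∞) (x : Lp' p) : mazInv p (maz p x) = x := by
  have h0 : 0 < p.toReal := by linarith [toReal_ge hp]
  apply lp.ext
  funext k
  rw [mazInv_apply hp, maz_apply hp, psi_psi h0]

lemma maz_mazInv (hp : p ≠ ∞) (y : Lone) : maz p (mazInv p y) = y := by
  have h0 : 0 < p.toReal := by linarith [toReal_ge hp]
  apply lp.ext
  funext k
  rw [maz_apply hp, mazInv_apply hp, psi_psi' h0]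

/-- Uniform continuity of the map to `ℓ_1` on the unit ball. -/
lemma maz_uc (hp : p ≠ ∞) {ε : ℝ} (hε : 0 < ε) : ∃ δ > 0, ∀ x y : Lp' p, ‖x‖ ≤ 1 → ‖y‖ ≤ 1 →
    ‖x - y‖ < δ → ‖maz p x - maz p y‖ < ε := by
  have h1 := toReal_ge hp
  set r := p.toReal
  have h0 : 0 < r := by linarith
  -- choose η
  set η : ℝ := ε / (8 * (1 + r)) with hη
  have hη0 : 0 < η := by positivity
  set D : ℝ := 2 * (1 + r) * η ^ (1 - r) with hD
  have hD0 : 0 < D := by positivity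
  refine ⟨(ε / (4 * D)) ^ (1 / r), by positivity, fun x y hx hy hxy => ?_⟩
  have key : ‖maz p x - maz p y‖ ≤ (1 + r) * (η * ‖x‖ ^ r + η ^ (1 - r) * ‖x - y‖ ^ r)
      + (1 + r) * (η * ‖y‖ ^ r + η ^ (1 - r) * ‖x - y‖ ^ r) := by
    rw [lone_norm, lp_norm hp x, lp_norm hp y, lp_norm hp (x - y)]
    have s1 := lp_summable hp x
    have s2 := lp_summable hp y
    have s3 := lp_summable hp (x - y)
    have t1 := ((s1.mul_left η).add (s3.mul_left (η ^ (1 - r)))).mul_left (1 + r)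
    have t2 := ((s2.mul_left η).add (s3.mul_left (η ^ (1 - r)))).mul_left (1 + r)
    rw [← tsum_mul_left, ← tsum_mul_left, ← tsum_mul_left,
      ← (s1.mul_left η).tsum_add (s3.mul_left (η ^ (1 - r))),
      ← (s2.mul_left η).tsum_add (s3.mul_left (η ^ (1 - r))),
      ← tsum_mul_left, ← tsum_mul_left, ← t1.tsum_add t2]
    refine (lone_summable _).tsum_le_tsum (fun i => ?_) (t1.add t2)
    rw [lp.coeFn_sub, Pi.sub_apply, maz_apply hp, maz_apply hp, lp.coeFn_sub, Pi.sub_apply]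
    have h2 := psi_lip h1 ((x : ℕ → ℝ) i) ((y : ℕ → ℝ) i)
    have h3 := young h1 (abs_nonneg ((x : ℕ → ℝ) i)) (abs_nonneg ((x : ℕ → ℝ) i - (y : ℕ → ℝ) i)) hη0
    have h4 := young h1 (abs_nonneg ((y : ℕ → ℝ) i)) (abs_nonneg ((x : ℕ → ℝ) i - (y : ℕ → ℝ) i)) hη0
    simp only [Real.norm_eq_abs] at h2
    refine h2.trans ?_
    have h5 : (1 + r) * (|(x : ℕ → ℝ) i| ^ (r - 1) + |(y : ℕ → ℝ) i| ^ (r - 1))
        * |(x : ℕ → ℝ) i - (y : ℕ → ℝ) i|
        = (1 + r) * (|(x : ℕ → ℝ) i| ^ (r - 1) * |(x : ℕ → ℝ) i - (y : ℕ → ℝ) i|)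
        + (1 + r) * (|(y : ℕ → ℝ) i| ^ (r - 1) * |(x : ℕ → ℝ) i - (y : ℕ → ℝ) i|) := by ring
    rw [h5]
    apply add_le_add
    · exact mul_le_mul_of_nonneg_left h3 (by positivity)
    · exact mul_le_mul_of_nonneg_left h4 (by positivity)
  have hx' : ‖x‖ ^ r ≤ 1 := Real.rpow_le_one (norm_nonneg _) hx h0.le
  have hy' : ‖y‖ ^ r ≤ 1 := Real.rpow_le_one (norm_nonneg _) hy h0.le
  have hd : ‖x - y‖ ^ r < ε / (4 * D) := by
    have := Real.rpow_lt_rpow (norm_nonneg _) hxy h0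
    rwa [← Real.rpow_mul (by positivity), one_div_mul_cancel h0.ne', Real.rpow_one] at this
  have h6 : (1 + r) * (η * ‖x‖ ^ r) ≤ ε / 8 := by
    have : (1 + r) * η = ε / 8 := by rw [hη]; field_simp
    calc (1 + r) * (η * ‖x‖ ^ r) = ((1 + r) * η) * ‖x‖ ^ r := by ring
      _ ≤ ε / 8 := by rw [this]; nlinarith
  have h7 : (1 + r) * (η * ‖y‖ ^ r) ≤ ε / 8 := by
    have : (1 + r) * η = ε / 8 := by rw [hη]; field_simp
    calc (1 + r) * (η * ‖y‖ ^ r) = ((1 + r) * η) * ‖y‖ ^ r := by ring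
      _ ≤ ε / 8 := by rw [this]; nlinarith
  have h8 : D * ‖x - y‖ ^ r < ε / 4 := by
    have := mul_lt_mul_of_pos_left hd hD0
    have e : D * (ε / (4 * D)) = ε / 4 := by field_simp
    rwa [e] at this
  calc ‖maz p x - maz p y‖ ≤ _ := key
    _ = (1 + r) * (η * ‖x‖ ^ r) + (1 + r) * (η * ‖y‖ ^ r) + D * ‖x - y‖ ^ r := by rw [hD]; ring
    _ < ε := by linarith

/-- Uniform continuity of the map from `ℓ_1`. -/
lemma mazInv_holder (hp : p ≠ ∞) (x y : Lone) :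
    ‖mazInv p x - mazInv p y‖ ≤ 3 * ‖x - y‖ ^ (1 / p.toReal) := by
  have h1 := toReal_ge hp
  have h0 : 0 < p.toReal := by linarith
  have key : ‖mazInv p x - mazInv p y‖ ^ p.toReal ≤ 3 ^ p.toReal * ‖x - y‖ := by
    rw [lp_norm hp, lone_norm, ← tsum_mul_left]
    refine (lp_summable hp _).tsum_le_tsum (fun i => ?_) ((lone_summable _).mul_left _)
    rw [lp.coeFn_sub, Pi.sub_apply, mazInv_apply hp, mazInv_apply hp, lp.coeFn_sub, Pi.sub_apply]
    have h2 := psi_holder (θ := 1 / p.toReal) (by positivity)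
      (by rw [div_le_one h0]; exact h1) ((x : ℕ → ℝ) i) ((y : ℕ → ℝ) i)
    simp only [Real.norm_eq_abs] at h2
    have h3 := Real.rpow_le_rpow (abs_nonneg _) h2 h0.le
    refine h3.trans (le_of_eq ?_)
    rw [Real.mul_rpow (by norm_num) (by positivity), ← Real.rpow_mul (abs_nonneg _),
      one_div_mul_cancel h0.ne', Real.rpow_one]
  have h4 := Real.rpow_le_rpow (by positivity) key (show 0 ≤ 1 / p.toReal by positivity)
  rw [← Real.rpow_mul (norm_nonneg _), mul_one_div_cancel h0.ne', Real.rpow_one,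
    Real.mul_rpow (by positivity) (norm_nonneg _), ← Real.rpow_mul (by norm_num),
    mul_one_div_cancel h0.ne', Real.rpow_one] at h4
  exact h4

variable {Z : Type v} [NormedAddCommGroup Z] [NormedSpace ℝ Z]

lemma norm_pair_rpow {a b s : ℝ} (ha : 0 ≤ a) (hb : 0 ≤ b) (hs : 0 ≤ s) :
    max (a ^ s) (b ^ s) = (max a b) ^ s := by
  rcases le_total a b with h | h
  · rw [max_eq_right h, max_eq_right (Real.rpow_le_rpow ha h hs)]
  · rw [max_eq_left h, max_eq_left (Real.rpow_le_rpow hb h hs)]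

/-- The map between `ℓ_p × Z` and `ℓ_1 × Z`. -/
noncomputable def Psi (p : ℝ≥0∞) (v : Lp' p × Z) : Lone × Z := (maz p v.1, psi p.toReal v.2)

/-- The inverse map. -/
noncomputable def PsiInv (p : ℝ≥0∞) (v : Lone × Z) : Lp' p × Z :=
  (mazInv p v.1, psi (1 / p.toReal) v.2)

lemma norm_Psi (hp : p ≠ ∞) (v : Lp' p × Z) : ‖Psi p v‖ = ‖v‖ ^ p.toReal := by
  have h0 : 0 < p.toReal := by linarith [toReal_ge hp]
  rw [Psi, Prod.norm_def, Prod.norm_def, norm_maz hp, norm_psi h0,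
    norm_pair_rpow (norm_nonneg _) (norm_nonneg _) h0.le]

lemma PsiInv_Psi (hp : p ≠ ∞) (v : Lp' p × Z) : PsiInv p (Psi p v) = v := by
  have h0 : 0 < p.toReal := by linarith [toReal_ge hp]
  rw [Psi, PsiInv, mazInv_maz hp, psi_psi h0]

lemma Psi_PsiInv (hp : p ≠ ∞) (v : Lone × Z) : Psi p (PsiInv p v) = v := by
  have h0 : 0 < p.toReal := by linarith [toReal_ge hp]
  rw [Psi, PsiInv, maz_mazInv hp]
  have := psi_psi (s := 1 / p.toReal) (by positivity) v.2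
  rw [one_div_one_div] at this
  rw [this]

lemma norm_PsiInv (hp : p ≠ ∞) (v : Lone × Z) : ‖PsiInv p v‖ ^ p.toReal = ‖v‖ := by
  rw [← norm_Psi hp, Psi_PsiInv hp]

lemma Psi_uc (hp : p ≠ ∞) : UniformContinuousOn (Psi p) {v : Lp' p × Z | ‖v‖ ≤ 1} := by
  have h1 := toReal_ge hp
  rw [Metric.uniformContinuousOn_iff]
  intro ε hε
  obtain ⟨δ, hδ, h⟩ := maz_uc hp hε
  refine ⟨min δ (ε / (2 * (1 + p.toReal))), by positivity, fun a ha b hb hab => ?_⟩
  change ‖a‖ ≤ 1 at ha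
  change ‖b‖ ≤ 1 at hb
  rw [dist_eq_norm] at hab ⊢
  have n1 : ‖a.1 - b.1‖ ≤ ‖a - b‖ := norm_fst_le (a - b)
  have n2 : ‖a.2 - b.2‖ ≤ ‖a - b‖ := norm_snd_le (a - b)
  rw [Psi, Psi, Prod.mk_sub_mk, Prod.norm_def]
  apply max_lt
  · exact h _ _ ((norm_fst_le a).trans ha) ((norm_fst_le b).trans hb)
      (n1.trans_lt (hab.trans_le (min_le_left _ _)))
  · simp only
    refine (psi_lip h1 a.2 b.2).trans_lt ?_
    have h2 : ‖a.2‖ ^ (p.toReal - 1) ≤ 1 :=
      Real.rpow_le_one (norm_nonneg _) ((norm_snd_le a).trans ha) (by linarith)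
    have h3 : ‖b.2‖ ^ (p.toReal - 1) ≤ 1 :=
      Real.rpow_le_one (norm_nonneg _) ((norm_snd_le b).trans hb) (by linarith)
    have h4 : ‖a.2 - b.2‖ < ε / (2 * (1 + p.toReal)) :=
      n2.trans_lt (hab.trans_le (min_le_right _ _))
    rw [lt_div_iff₀ (by positivity)] at h4
    have h5 : (1 + p.toReal) * (‖a.2‖ ^ (p.toReal - 1) + ‖b.2‖ ^ (p.toReal - 1)) * ‖a.2 - b.2‖
        ≤ (1 + p.toReal) * 2 * ‖a.2 - b.2‖ := by
      apply mul_le_mul_of_nonneg_right _ (norm_nonneg _)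
      apply mul_le_mul_of_nonneg_left _ (by linarith)
      linarith
    linarith

lemma PsiInv_uc (hp : p ≠ ∞) (A : Set (Lone × Z)) : UniformContinuousOn (PsiInv p) A := by
  have h1 := toReal_ge hp
  have h0 : 0 < p.toReal := by linarith
  rw [Metric.uniformContinuousOn_iff]
  intro ε hε
  refine ⟨(ε / 3) ^ p.toReal, by positivity, fun a _ b _ hab => ?_⟩
  rw [dist_eq_norm] at hab ⊢
  have n1 : ‖a.1 - b.1‖ ≤ ‖a - b‖ := norm_fst_le (a - b)
  have n2 : ‖a.2 - b.2‖ ≤ ‖a - b‖ := norm_snd_le (a - b)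
  have key : ∀ t : ℝ, 0 ≤ t → t ≤ ‖a - b‖ → 3 * t ^ (1 / p.toReal) < ε := by
    intro t ht0 ht
    have := Real.rpow_lt_rpow ht0 (ht.trans_lt hab) (show 0 < 1 / p.toReal by positivity)
    rw [← Real.rpow_mul (by positivity), mul_one_div_cancel h0.ne', Real.rpow_one] at this
    linarith
  rw [PsiInv, PsiInv, Prod.mk_sub_mk, Prod.norm_def]
  apply max_lt
  · exact (mazInv_holder hp a.1 b.1).trans_lt (key _ (norm_nonneg _) n1)
  · exact (psi_holder (by positivity) (by rw [div_le_one h0]; exact h1) a.2 b.2).trans_lt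
      (key _ (norm_nonneg _) n2)

lemma ue_sphere (hp : p ≠ ∞) : UE {v : Lp' p × Z | ‖v‖ = 1} {w : Lone × Z | ‖w‖ = 1} := by
  have h0 : 0 < p.toReal := by linarith [toReal_ge hp]
  refine ⟨Psi p, PsiInv p, ?_, ?_, fun v _ => PsiInv_Psi hp v, fun w _ => Psi_PsiInv hp w,
    (Psi_uc hp).mono ?_, PsiInv_uc hp _⟩
  · intro v hv
    change ‖v‖ = 1 at hv
    change ‖Psi p v‖ = 1
    rw [norm_Psi hp, hv, Real.one_rpow]
  · intro w hw
    change ‖w‖ = 1 at hw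
    change ‖PsiInv p w‖ = 1
    have := norm_PsiInv hp w
    rw [hw] at this
    have h2 := congrArg (fun t : ℝ => t ^ (1 / p.toReal)) this
    rwa [← Real.rpow_mul (norm_nonneg _), mul_one_div_cancel h0.ne', Real.rpow_one,
      Real.one_rpow] at h2
  · intro v hv
    exact le_of_eq hv

lemma ue_ball (hp : p ≠ ∞) : UE {v : Lp' p × Z | ‖v‖ ≤ 1} {w : Lone × Z | ‖w‖ ≤ 1} := by
  have h0 : 0 < p.toReal := by linarith [toReal_ge hp]
  refine ⟨Psi p, PsiInv p, ?_, ?_, fun v _ => PsiInv_Psi hp v, fun w _ => Psi_PsiInv hp w,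
    Psi_uc hp, PsiInv_uc hp _⟩
  · intro v hv
    change ‖v‖ ≤ 1 at hv
    change ‖Psi p v‖ ≤ 1
    rw [norm_Psi hp]
    exact Real.rpow_le_one (norm_nonneg _) hv h0.le
  · intro w hw
    change ‖w‖ ≤ 1 at hw
    change ‖PsiInv p w‖ ≤ 1
    by_contra hcon
    push Not at hcon
    have := norm_PsiInv hp w
    have h2 := Real.one_lt_rpow hcon h0
    linarith

/-- The main theorem for `ℓ_p`. -/
theorem sphere_ball_lp (hp : p ≠ ∞) (X : Type v) [NormedAddCommGroup X] [NormedSpace ℝ X]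
    (i : Lp' p →L[ℝ] X) (π : X →L[ℝ] Lp' p) (h : ∀ x, π (i x) = x) :
    UE {x : X | ‖x‖ = 1} {x : X | ‖x‖ ≤ 1} := by
  let T : X ≃L[ℝ] Lp' p × (LinearMap.ker (π : X →ₗ[ℝ] Lp' p)) :=
    ContinuousLinearEquiv.equivOfRightInverse π i h
  have r := hrel_of_linear T
  have r1 := r.sphere
  have r2 := r.ball
  simp only [Set.mem_univ, true_and] at r1 r2
  have r3 := ue_sphere (Z := (LinearMap.ker (π : X →ₗ[ℝ] Lp' p))) hp
  have r4 := ue_ball (Z := (LinearMap.ker (π : X →ₗ[ℝ] Lp' p))) hp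
  have r5 := (sphere_ball_prod pOne shift_one (LinearMap.ker (π : X →ₗ[ℝ] Lp' p))).toUE
  exact (((r1.toUE.trans r3).trans r5).trans r4.symm).trans r2.toUE.symm

end lp

/-- From subsets to subtypes. -/
lemma UE.equiv {X : Type u} [NormedAddCommGroup X] (h : UE {x : X | ‖x‖ = 1} {x : X | ‖x‖ ≤ 1}) :
    Nonempty (Metric.sphere (0 : X) 1 ≃ᵤ Metric.closedBall (0 : X) 1) := by
  obtain ⟨f, g, h1, h2, h3, h4, h6, h7⟩ := h
  have hs : ∀ x : X, x ∈ Metric.sphere (0 : X) 1 ↔ ‖x‖ = 1 := fun x => by simp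
  have hb : ∀ x : X, x ∈ Metric.closedBall (0 : X) 1 ↔ ‖x‖ ≤ 1 := fun x => by simp
  refine ⟨{
    toFun := fun x => ⟨f x, (hb _).2 (h1 x ((hs _).1 x.2))⟩
    invFun := fun x => ⟨g x, (hs _).2 (h2 x ((hb _).1 x.2))⟩
    left_inv := fun x => Subtype.ext (h3 x ((hs _).1 x.2))
    right_inv := fun x => Subtype.ext (h4 x ((hb _).1 x.2))
    uniformContinuous_toFun := ?_
    uniformContinuous_invFun := ?_ }⟩
  · rw [Metric.uniformContinuous_iff]
    rw [Metric.uniformContinuousOn_iff] at h6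
    intro ε hε
    obtain ⟨δ, hδ, h⟩ := h6 ε hε
    exact ⟨δ, hδ, fun {a b} hab => h a ((hs _).1 a.2) b ((hs _).1 b.2) hab⟩
  · rw [Metric.uniformContinuous_iff]
    rw [Metric.uniformContinuousOn_iff] at h7
    intro ε hε
    obtain ⟨δ, hδ, h⟩ := h7 ε hε
    exact ⟨δ, hδ, fun {a b} hab => h a ((hb _).1 a.2) b ((hb _).1 b.2) hab⟩

/-- From subsets to subtypes, bi-Lipschitz version. -/
lemma BL.equiv {X : Type u} [NormedAddCommGroup X] (h : BL {x : X | ‖x‖ = 1} {x : X | ‖x‖ ≤ 1}) :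
    ∃ (e : Metric.sphere (0 : X) 1 ≃ Metric.closedBall (0 : X) 1) (K : NNReal),
      LipschitzWith K e ∧ LipschitzWith K e.symm := by
  obtain ⟨f, g, K, hK, h1, h2, h3, h4, h6, h7⟩ := h
  have hs : ∀ x : X, x ∈ Metric.sphere (0 : X) 1 ↔ ‖x‖ = 1 := fun x => by simp
  have hb : ∀ x : X, x ∈ Metric.closedBall (0 : X) 1 ↔ ‖x‖ ≤ 1 := fun x => by simp
  refine ⟨{
    toFun := fun x => ⟨f x, (hb _).2 (h1 x ((hs _).1 x.2))⟩
    invFun := fun x => ⟨g x, (hs _).2 (h2 x ((hb _).1 x.2))⟩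
    left_inv := fun x => Subtype.ext (h3 x ((hs _).1 x.2))
    right_inv := fun x => Subtype.ext (h4 x ((hb _).1 x.2)) }, ⟨K, hK⟩, ?_, ?_⟩
  · refine LipschitzWith.of_dist_le_mul fun a b => ?_
    have := h6 a ((hs _).1 a.2) b ((hs _).1 b.2)
    rw [← dist_eq_norm, ← dist_eq_norm] at this
    exact this
  · refine LipschitzWith.of_dist_le_mul fun a b => ?_
    have := h7 a ((hb _).1 a.2) b ((hb _).1 b.2)
    rw [← dist_eq_norm, ← dist_eq_norm] at this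
    exact this

end Pool.Agent.W2helper13.Sph
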