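import Mathlib
import Pool.Agent.W2helper13.Sph.MazurLp
import Pool.Agent.X202.Sobczyk

/-!
# Closure properties and larger classes of spaces
-/

set_option autoImplicit false

namespace Pool.Agent.W2helper13.Sph

open Filter Topology
open scoped ENNReal ZeroAtInfty

universe u v w x

section cone

variable {Y : Type u} [NormedAddCommGroup Y] [NormedSpace ℝ Y]
  {E : Type v} [NormedAddCommGroup E] [NormedSpace ℝ E]

/-- The positively homogeneous extension of a map defined on the unit sphere. -/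
noncomputable def cone (f : Y → E) (y : Y) : E := ‖y‖ • f (‖y‖⁻¹ • y)

lemma norm_unit {y : Y} (hy : y ≠ 0) : ‖(‖y‖⁻¹ • y)‖ = 1 := by
  rw [norm_smul, norm_inv, norm_norm, inv_mul_cancel₀ (norm_ne_zero_iff.2 hy)]

lemma norm_cone {f : Y → E} (hf : ∀ y, ‖y‖ = 1 → ‖f y‖ = 1) (y : Y) : ‖cone f y‖ = ‖y‖ := by
  rcases eq_or_ne y 0 with rfl | hy
  · simp [cone]
  · rw [cone, norm_smul, norm_norm, hf _ (norm_unit hy), mul_one]

lemma cone_cone {f : Y → E} {g : E → Y} (hf : ∀ y, ‖y‖ = 1 → ‖f y‖ = 1)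
    (h : ∀ y, ‖y‖ = 1 → g (f y) = y) (y : Y) : cone g (cone f y) = y := by
  rcases eq_or_ne y 0 with rfl | hy
  · simp [cone]
  · have hy' : ‖y‖ ≠ 0 := norm_ne_zero_iff.2 hy
    rw [cone, norm_cone hf, cone, smul_smul, inv_mul_cancel₀ hy', one_smul, h _ (norm_unit hy),
      smul_smul, mul_inv_cancel₀ hy', one_smul]

lemma cone_uc {f : Y → E} (hf : ∀ y, ‖y‖ = 1 → ‖f y‖ = 1)
    (hu : UniformContinuousOn f {y : Y | ‖y‖ = 1}) :
    UniformContinuousOn (cone f) {y : Y | ‖y‖ ≤ 1} := by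
  rw [Metric.uniformContinuousOn_iff] at hu ⊢
  intro ε hε
  obtain ⟨δ, hδ, h⟩ := hu (ε / 2) (by positivity)
  -- it is enough to treat ordered pairs
  have key : ∀ a b : Y, ‖a‖ ≤ 1 → ‖b‖ ≤ ‖a‖ → ‖a - b‖ < min (ε / 2) (ε * δ / 8) →
      ‖cone f a - cone f b‖ < ε := by
    intro a b ha hba hab
    have h1 : ‖a - b‖ < ε / 2 := hab.trans_le (min_le_left _ _)
    have h2 : ‖a - b‖ < ε * δ / 8 := hab.trans_le (min_le_right _ _)
    rcases lt_or_ge (‖a‖ + ‖b‖) ε with h3 | h3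
    · refine (norm_sub_le _ _).trans_lt ?_
      rwa [norm_cone hf, norm_cone hf]
    · have h4 : ε / 2 ≤ ‖a‖ := by linarith
      have ha0 : a ≠ 0 := by
        rintro rfl
        rw [norm_zero] at h4
        linarith
      have hna : 0 < ‖a‖ := norm_pos_iff.2 ha0
      rcases eq_or_ne b 0 with rfl | hb0
      · have : cone f (0 : Y) = 0 := by simp [cone]
        rw [this, sub_zero, norm_cone hf]
        rw [sub_zero] at h1
        linarith
      have hnb : 0 < ‖b‖ := norm_pos_iff.2 hb0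
      have h5 : ‖‖a‖⁻¹ • a - ‖b‖⁻¹ • b‖ < δ := by
        have e : ‖a‖⁻¹ • a - ‖b‖⁻¹ • b = ‖a‖⁻¹ • ((a - b) + (‖b‖ - ‖a‖) • (‖b‖⁻¹ • b)) := by
          have h9 : (‖b‖ - ‖a‖) • (‖b‖⁻¹ • b) = b - (‖a‖ * ‖b‖⁻¹) • b := by
            rw [sub_smul, smul_smul, smul_smul, mul_inv_cancel₀ hnb.ne', one_smul]
          rw [h9, smul_add, smul_sub, smul_sub, smul_smul ‖a‖⁻¹ (‖a‖ * ‖b‖⁻¹), ← mul_assoc,
            inv_mul_cancel₀ hna.ne', one_mul]
          abel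
        rw [e, norm_smul, norm_inv, norm_norm, inv_mul_lt_iff₀ hna]
        have h6 : ‖(a - b) + (‖b‖ - ‖a‖) • (‖b‖⁻¹ • b)‖ ≤ 2 * ‖a - b‖ := by
          refine (norm_add_le _ _).trans ?_
          rw [norm_smul, norm_unit hb0, mul_one, Real.norm_eq_abs]
          have := abs_norm_sub_norm_le b a
          rw [norm_sub_rev b a] at this
          linarith
        have h7 : ε / 2 * δ ≤ ‖a‖ * δ := mul_le_mul_of_nonneg_right h4 hδ.le
        have h10 : ε / 2 * δ = 4 * (ε * δ / 8) := by ring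
        have h11 : 0 < ε * δ := mul_pos hε hδ
        linarith
      have h6 := h (‖a‖⁻¹ • a) (norm_unit ha0) (‖b‖⁻¹ • b) (norm_unit hb0)
        (by rw [dist_eq_norm]; exact h5)
      rw [dist_eq_norm] at h6
      have e : cone f a - cone f b = ‖a‖ • (f (‖a‖⁻¹ • a) - f (‖b‖⁻¹ • b))
          + (‖a‖ - ‖b‖) • f (‖b‖⁻¹ • b) := by
        rw [cone, cone, smul_sub, sub_smul]; abel
      rw [e]
      refine (norm_add_le _ _).trans_lt ?_
      rw [norm_smul, norm_smul, norm_norm, hf _ (norm_unit hb0), mul_one, Real.norm_eq_abs]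
      have h7 := abs_norm_sub_norm_le a b
      have h8 : ‖a‖ * ‖f (‖a‖⁻¹ • a) - f (‖b‖⁻¹ • b)‖ ≤ 1 * ‖f (‖a‖⁻¹ • a) - f (‖b‖⁻¹ • b)‖ :=
        mul_le_mul_of_nonneg_right ha (norm_nonneg _)
      linarith
  refine ⟨min (ε / 2) (ε * δ / 8), by positivity, fun a ha b hb hab => ?_⟩
  change ‖a‖ ≤ 1 at ha
  change ‖b‖ ≤ 1 at hb
  rw [dist_eq_norm] at hab ⊢
  rcases le_total ‖b‖ ‖a‖ with h1 | h1
  · exact key a b ha h1 hab
  · rw [norm_sub_rev] at hab ⊢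
    exact key b a hb h1 hab

variable (Z : Type w) [NormedAddCommGroup Z] [NormedSpace ℝ Z]

lemma ue_prod_ball (h : UE {y : Y | ‖y‖ = 1} {e : E | ‖e‖ = 1}) :
    ∃ (F : Y × Z → E × Z) (G : E × Z → Y × Z), (∀ v, ‖F v‖ = ‖v‖) ∧ (∀ v, ‖G v‖ = ‖v‖) ∧
      (∀ v, G (F v) = v) ∧ (∀ w, F (G w) = w) ∧
      UniformContinuousOn F {v | ‖v‖ ≤ 1} ∧ UniformContinuousOn G {v | ‖v‖ ≤ 1} := by
  obtain ⟨f, g, h1, h2, h3, h4, h6, h7⟩ := h
  refine ⟨fun v => (cone f v.1, v.2), fun w => (cone g w.1, w.2), ?_, ?_, ?_, ?_, ?_, ?_⟩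
  · intro v
    rw [Prod.norm_def, Prod.norm_def, norm_cone h1]
  · intro v
    rw [Prod.norm_def, Prod.norm_def, norm_cone h2]
  · intro v
    exact Prod.ext (cone_cone h1 h3 v.1) rfl
  · intro v
    exact Prod.ext (cone_cone h2 h4 v.1) rfl
  · have h8 := cone_uc h1 h6
    rw [Metric.uniformContinuousOn_iff] at h8 ⊢
    intro ε hε
    obtain ⟨δ, hδ, h⟩ := h8 ε hε
    refine ⟨min δ ε, by positivity, fun a ha b hb hab => ?_⟩
    rw [dist_eq_norm] at hab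
    have n1 : ‖a.1 - b.1‖ ≤ ‖a - b‖ := norm_fst_le (a - b)
    have n2 : ‖a.2 - b.2‖ ≤ ‖a - b‖ := norm_snd_le (a - b)
    have := h a.1 ((norm_fst_le a).trans ha) b.1 ((norm_fst_le b).trans hb)
      (by rw [dist_eq_norm]; exact n1.trans_lt (hab.trans_le (min_le_left _ _)))
    rw [Prod.dist_eq]
    refine max_lt this ?_
    rw [dist_eq_norm]
    exact n2.trans_lt (hab.trans_le (min_le_right _ _))
  · have h8 := cone_uc h2 h7
    rw [Metric.uniformContinuousOn_iff] at h8 ⊢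
    intro ε hε
    obtain ⟨δ, hδ, h⟩ := h8 ε hε
    refine ⟨min δ ε, by positivity, fun a ha b hb hab => ?_⟩
    rw [dist_eq_norm] at hab
    have n1 : ‖a.1 - b.1‖ ≤ ‖a - b‖ := norm_fst_le (a - b)
    have n2 : ‖a.2 - b.2‖ ≤ ‖a - b‖ := norm_snd_le (a - b)
    have := h a.1 ((norm_fst_le a).trans ha) b.1 ((norm_fst_le b).trans hb)
      (by rw [dist_eq_norm]; exact n1.trans_lt (hab.trans_le (min_le_left _ _)))
    rw [Prod.dist_eq]
    refine max_lt this ?_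
    rw [dist_eq_norm]
    exact n2.trans_lt (hab.trans_le (min_le_right _ _))

lemma ue_prod_sphere' (h : UE {y : Y | ‖y‖ = 1} {e : E | ‖e‖ = 1}) :
    UE {v : Y × Z | ‖v‖ = 1} {v : E × Z | ‖v‖ = 1} := by
  obtain ⟨F, G, h1, h2, h3, h4, h5, h6⟩ := ue_prod_ball Z h
  refine ⟨F, G, fun v hv => ?_, fun v hv => ?_, fun v _ => h3 v, fun v _ => h4 v,
    h5.mono fun v hv => le_of_eq hv, h6.mono fun v hv => le_of_eq hv⟩
  · change ‖F v‖ = 1
    rw [h1]; exact hv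
  · change ‖G v‖ = 1
    rw [h2]; exact hv

lemma ue_prod_ball' (h : UE {y : Y | ‖y‖ = 1} {e : E | ‖e‖ = 1}) :
    UE {v : Y × Z | ‖v‖ ≤ 1} {v : E × Z | ‖v‖ ≤ 1} := by
  obtain ⟨F, G, h1, h2, h3, h4, h5, h6⟩ := ue_prod_ball Z h
  refine ⟨F, G, fun v hv => ?_, fun v hv => ?_, fun v _ => h3 v, fun v _ => h4 v, h5, h6⟩
  · change ‖F v‖ ≤ 1
    rw [h1]; exact hv
  · change ‖G v‖ ≤ 1
    rw [h2]; exact hv

end cone

/-- A space is good if the ball and the sphere of each product with it are uniformly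
homeomorphic. -/
def Good.{a, b} (E : Type a) [NormedAddCommGroup E] [NormedSpace ℝ E] : Prop :=
  ∀ (Z : Type b) [NormedAddCommGroup Z] [NormedSpace ℝ Z],
    UE {y : E × Z | ‖y‖ = 1} {y : E × Z | ‖y‖ ≤ 1}

lemma good_one : Good.{0, v} Lone := fun Z _ _ => (sphere_ball_prod pOne shift_one Z).toUE

lemma good_zero : Good.{0, v} C₀(ℕ, ℝ) := fun Z _ _ => (sphere_ball_prod pZero shift_zero Z).toUE

lemma good_inf : Good.{0, v} Linf := fun Z _ _ => (sphere_ball_prod pInf shift_inf Z).toUE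

lemma good_lp {p : ℝ≥0∞} [Fact (1 ≤ p)] (hp : p ≠ ∞) : Good.{0, v} (Lp' p) := fun Z _ _ =>
  ((ue_sphere (Z := Z) hp).trans (sphere_ball_prod pOne shift_one Z).toUE).trans
    (ue_ball (Z := Z) hp).symm

lemma good_lp' {p : ℝ≥0∞} [Fact (1 ≤ p)] : Good.{0, v} (lp (fun _ : ℕ => ℝ) p) := by
  rcases eq_or_ne p ∞ with rfl | hp
  · exact good_inf
  · exact good_lp hp

lemma Good.trans {Y : Type u} [NormedAddCommGroup Y] [NormedSpace ℝ Y]
    {E : Type w} [NormedAddCommGroup E] [NormedSpace ℝ E] (hE : Good.{w, v} E)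
    (h : UE {y : Y | ‖y‖ = 1} {e : E | ‖e‖ = 1}) : Good.{u, v} Y := fun Z _ _ =>
  ((ue_prod_sphere' Z h).trans (hE Z)).trans (ue_prod_ball' Z h).symm

theorem Good.complemented {Y : Type u} [NormedAddCommGroup Y] [NormedSpace ℝ Y]
    (hY : Good.{u, v} Y) (X : Type v) [NormedAddCommGroup X] [NormedSpace ℝ X]
    (i : Y →L[ℝ] X) (π : X →L[ℝ] Y) (h : ∀ x, π (i x) = x) :
    UE {x : X | ‖x‖ = 1} {x : X | ‖x‖ ≤ 1} := by
  let T : X ≃L[ℝ] Y × (LinearMap.ker (π : X →ₗ[ℝ] Y)) :=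
    ContinuousLinearEquiv.equivOfRightInverse π i h
  have r := hrel_of_linear T
  have r1 := r.sphere
  have r2 := r.ball
  simp only [Set.mem_univ, true_and] at r1 r2
  exact (r1.toUE.trans (hY _)).trans r2.toUE.symm

/-- From subtypes to subsets. -/
lemma UE.of_equiv {Y : Type u} [NormedAddCommGroup Y] {E : Type v} [NormedAddCommGroup E]
    (e : Metric.sphere (0 : Y) 1 ≃ᵤ Metric.sphere (0 : E) 1) :
    UE {y : Y | ‖y‖ = 1} {e : E | ‖e‖ = 1} := by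
  classical
  have hY : ∀ x : Y, x ∈ Metric.sphere (0 : Y) 1 ↔ ‖x‖ = 1 := fun x => by simp
  have hE : ∀ x : E, x ∈ Metric.sphere (0 : E) 1 ↔ ‖x‖ = 1 := fun x => by simp
  refine ⟨fun y => if h : ‖y‖ = 1 then (e ⟨y, (hY y).2 h⟩ : E) else 0,
    fun y => if h : ‖y‖ = 1 then (e.symm ⟨y, (hE y).2 h⟩ : Y) else 0, ?_, ?_, ?_, ?_, ?_, ?_⟩
  · intro y hy
    change ‖y‖ = 1 at hy
    simp only [dif_pos hy]
    exact (hE _).1 (e ⟨y, (hY y).2 hy⟩).2
  · intro y hy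
    change ‖y‖ = 1 at hy
    simp only [dif_pos hy]
    exact (hY _).1 (e.symm ⟨y, (hE y).2 hy⟩).2
  · intro y hy
    change ‖y‖ = 1 at hy
    have h1 : ‖(e ⟨y, (hY y).2 hy⟩ : E)‖ = 1 := (hE _).1 (e ⟨y, (hY y).2 hy⟩).2
    simp only [dif_pos hy, dif_pos h1]
    simp
  · intro y hy
    change ‖y‖ = 1 at hy
    have h1 : ‖(e.symm ⟨y, (hE y).2 hy⟩ : Y)‖ = 1 := (hY _).1 (e.symm ⟨y, (hE y).2 hy⟩).2
    simp only [dif_pos hy, dif_pos h1]
    simp
  · have := e.uniformContinuous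
    rw [Metric.uniformContinuous_iff] at this
    rw [Metric.uniformContinuousOn_iff]
    intro ε hε
    obtain ⟨δ, hδ, h⟩ := this ε hε
    refine ⟨δ, hδ, fun a ha b hb hab => ?_⟩
    change ‖a‖ = 1 at ha
    change ‖b‖ = 1 at hb
    simp only [dif_pos ha, dif_pos hb]
    exact h (a := ⟨a, (hY a).2 ha⟩) (b := ⟨b, (hY b).2 hb⟩) hab
  · have := e.symm.uniformContinuous
    rw [Metric.uniformContinuous_iff] at this
    rw [Metric.uniformContinuousOn_iff]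
    intro ε hε
    obtain ⟨δ, hδ, h⟩ := this ε hε
    refine ⟨δ, hδ, fun a ha b hb hab => ?_⟩
    change ‖a‖ = 1 at ha
    change ‖b‖ = 1 at hb
    simp only [dif_pos ha, dif_pos hb]
    exact h (a := ⟨a, (hE a).2 ha⟩) (b := ⟨b, (hE b).2 hb⟩) hab

end Pool.Agent.W2helper13.Sph
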