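import Mathlib
import Pool.Agent.W2helper13.Sph.Close
import Pool.Agent.X202.Sobczyk

/-!
# Spaces with complemented copies of sequence spaces
-/

set_option autoImplicit false

namespace Pool.Agent.W2helper13.Sph

open Filter Topology
open scoped ENNReal ZeroAtInfty

universe u v w x

section ext

variable {E : Type u} [NormedAddCommGroup E] [NormedSpace ℝ E]
  {X : Type v} [NormedAddCommGroup X] [NormedSpace ℝ X]

/-- Functionals extend from isomorphic copies. -/
lemma extend_functional (i : E →L[ℝ] X) {c : ℝ} (hc : 0 < c) (hi : ∀ x, c * ‖x‖ ≤ ‖i x‖)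
    (φ : E →ₗ[ℝ] ℝ) (hφ : ∀ x, |φ x| ≤ ‖x‖) :
    ∃ Φ : StrongDual ℝ X, (∀ x, Φ (i x) = φ x) ∧ ‖Φ‖ ≤ c⁻¹ := by
  have hinj : Function.Injective (i : E →ₗ[ℝ] X) := by
    rw [injective_iff_map_eq_zero]
    intro x hx
    have h1 := hi x
    have h2 : i x = 0 := hx
    rw [h2, norm_zero] at h1
    have h3 : ‖x‖ ≤ 0 := by
      by_contra hcon
      push Not at hcon
      have := mul_pos hc hcon
      linarith
    exact norm_le_zero_iff.1 h3
  let e := LinearEquiv.ofInjective (i : E →ₗ[ℝ] X) hinj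
  have he : ∀ y : LinearMap.range (i : E →ₗ[ℝ] X), ‖φ (e.symm y)‖ ≤ c⁻¹ * ‖y‖ := by
    intro y
    refine (hφ _).trans ?_
    rw [le_inv_mul_iff₀ hc]
    refine (hi _).trans (le_of_eq ?_)
    have : (e (e.symm y) : X) = i (e.symm y) := rfl
    rw [← this, LinearEquiv.apply_symm_apply]
    rfl
  let f : StrongDual ℝ (LinearMap.range (i : E →ₗ[ℝ] X)) :=
    (φ ∘ₗ (e.symm : _ →ₗ[ℝ] E)).mkContinuous c⁻¹ he
  obtain ⟨g, hg1, hg2⟩ := exists_extension_norm_eq (LinearMap.range (i : E →ₗ[ℝ] X)) f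
  refine ⟨g, fun x => ?_, ?_⟩
  · have h1 := hg1 (e x)
    have h2 : ((e x : LinearMap.range (i : E →ₗ[ℝ] X)) : X) = i x := rfl
    rw [h2] at h1
    rw [h1]
    change φ (e.symm (e x)) = φ x
    rw [LinearEquiv.symm_apply_apply]
  · rw [hg2]
    exact LinearMap.mkContinuous_norm_le _ (by positivity) _

end ext

/-- A space with an isomorphic copy of `ℓ_∞` has a complemented copy. -/
theorem inf_complemented {X : Type v} [NormedAddCommGroup X] [NormedSpace ℝ X]
    (i : Linf →L[ℝ] X) {c : ℝ} (hc : 0 < c) (hi : ∀ x, c * ‖x‖ ≤ ‖i x‖) :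
    ∃ π : X →L[ℝ] Linf, ∀ x, π (i x) = x := by
  have hb : ∀ x : Linf, ∀ k, |(x : ℕ → ℝ) k| ≤ ‖x‖ := fun x k =>
    lp.norm_apply_le_norm ENNReal.top_ne_zero x k
  have h1 : ∀ k : ℕ, ∃ Φ : StrongDual ℝ X, (∀ x : Linf, Φ (i x) = (x : ℕ → ℝ) k) ∧ ‖Φ‖ ≤ c⁻¹ := by
    intro k
    exact extend_functional i hc hi
      { toFun := fun x : Linf => (x : ℕ → ℝ) k
        map_add' := fun _ _ => rfl
        map_smul' := fun _ _ => rfl } (fun x => hb x k)
  choose Φ h2 h3 using h1
  have h4 : ∀ v : X, ∀ k, |Φ k v| ≤ c⁻¹ * ‖v‖ := fun v k =>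
    ((Φ k).le_opNorm v).trans (mul_le_mul_of_nonneg_right (h3 k) (norm_nonneg _))
  let π₀ : X →ₗ[ℝ] Linf :=
    { toFun := fun v => mkInf fun k => Φ k v
      map_add' := by
        intro v w
        apply lp.ext
        funext k
        rw [lp.coeFn_add, Pi.add_apply, mkInf_apply ⟨_, h4 _⟩, mkInf_apply ⟨_, h4 _⟩,
          mkInf_apply ⟨_, h4 _⟩, map_add]
      map_smul' := by
        intro t v
        apply lp.ext
        funext k
        rw [lp.coeFn_smul, Pi.smul_apply, mkInf_apply ⟨_, h4 _⟩, mkInf_apply ⟨_, h4 _⟩, map_smul,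
          RingHom.id_apply] }
  refine ⟨π₀.mkContinuous c⁻¹ ?_, fun x => ?_⟩
  · intro v
    refine lp.norm_le_of_forall_le (by positivity) fun k => ?_
    change ‖((mkInf fun k => Φ k v : Linf) : ℕ → ℝ) k‖ ≤ _
    rw [mkInf_apply ⟨_, h4 _⟩]
    exact h4 v k
  · apply lp.ext
    funext k
    change ((mkInf fun k => Φ k (i x) : Linf) : ℕ → ℝ) k = _
    rw [mkInf_apply ⟨_, h4 _⟩, h2]

/-- Sobczyk's theorem: a separable space with an isomorphic copy of `c_0` has a complemented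
copy. -/
theorem zero_complemented {X : Type v} [NormedAddCommGroup X] [NormedSpace ℝ X]
    [TopologicalSpace.SeparableSpace X]
    (i : C₀(ℕ, ℝ) →L[ℝ] X) {c : ℝ} (hc : 0 < c) (hi : ∀ x, c * ‖x‖ ≤ ‖i x‖) :
    ∃ π : X →L[ℝ] C₀(ℕ, ℝ), ∀ x, π (i x) = x := by
  have h1 : ∀ k : ℕ, ∃ Φ : StrongDual ℝ X, (∀ x : C₀(ℕ, ℝ), Φ (i x) = x k) ∧ ‖Φ‖ ≤ c⁻¹ := by
    intro k
    exact extend_functional i hc hi
      { toFun := fun x : C₀(ℕ, ℝ) => x k
        map_add' := fun _ _ => rfl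
        map_smul' := fun _ _ => rfl } (fun x => c0_apply_le x k)
  choose Φ h2 h3 using h1
  obtain ⟨q, hq1, hq2, hq3⟩ := Pool.Agent.X202.sobczyk_seq
    (LinearMap.range (i : C₀(ℕ, ℝ) →ₗ[ℝ] X)) Φ (inv_pos.2 hc) h3 (by
      rintro _ ⟨x, rfl⟩
      change Tendsto (fun n => Φ n (i x)) atTop (𝓝 0)
      simp only [h2]
      exact c0_tendsto x)
  let π₀ : X →ₗ[ℝ] C₀(ℕ, ℝ) :=
    { toFun := fun v => mkZero fun k => q k v
      map_add' := by
        intro v w
        ext k
        rw [ZeroAtInftyContinuousMap.add_apply, mkZero_apply (hq3 _), mkZero_apply (hq3 _),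
          mkZero_apply (hq3 _), map_add]
      map_smul' := by
        intro t v
        ext k
        rw [ZeroAtInftyContinuousMap.smul_apply, mkZero_apply (hq3 _), mkZero_apply (hq3 _),
          map_smul, RingHom.id_apply] }
  refine ⟨π₀.mkContinuous (c⁻¹ + c⁻¹) ?_, fun x => ?_⟩
  · intro v
    refine c0_norm_le (by positivity) fun k => ?_
    change |(mkZero fun k => q k v : C₀(ℕ, ℝ)) k| ≤ _
    rw [mkZero_apply (hq3 _)]
    exact ((q k).le_opNorm v).trans (mul_le_mul_of_nonneg_right (hq1 k) (norm_nonneg _))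
  · ext k
    change (mkZero fun k => q k (i x) : C₀(ℕ, ℝ)) k = _
    have h5 : q k (i x) = Φ k (i x) := hq2 k _ ⟨x, rfl⟩
    rw [mkZero_apply (hq3 _), h5, h2]

/-- An infinite-dimensional Hilbert space has a complemented copy of `ℓ_2`. -/
theorem hilbert_complemented {H : Type v} [NormedAddCommGroup H] [InnerProductSpace ℝ H]
    [CompleteSpace H] (hH : ¬ FiniteDimensional ℝ H) :
    ∃ (i : lp (fun _ : ℕ => ℝ) 2 →L[ℝ] H) (π : H →L[ℝ] lp (fun _ : ℕ => ℝ) 2),
      ∀ x, π (i x) = x := by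
  classical
  obtain ⟨w, b, hb⟩ := exists_hilbertBasis ℝ H
  have hw : Infinite w := by
    by_contra hcon
    rw [not_infinite_iff_finite] at hcon
    have := Fintype.ofFinite w
    exact hH (b.toOrthonormalBasis.toBasis.finiteDimensional_of_finite)
  let ν := Infinite.natEmbedding w
  have hv : Orthonormal ℝ (fun n : ℕ => b (ν n)) := b.orthonormal.comp ν ν.injective
  let i₀ := hv.orthogonalFamily.linearIsometry
  refine ⟨i₀.toContinuousLinearMap, ContinuousLinearMap.adjoint i₀.toContinuousLinearMap, ?_⟩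
  have := (ContinuousLinearMap.norm_map_iff_adjoint_comp_self i₀.toContinuousLinearMap).1
    (fun x => i₀.norm_map x)
  intro x
  exact DFunLike.congr_fun this x

/-- Good spaces from complemented subspaces. -/
theorem Good.of_complemented {E : Type u} [NormedAddCommGroup E] [NormedSpace ℝ E]
    (hE : Good.{u, max v w} E) {W : Type w} [NormedAddCommGroup W] [NormedSpace ℝ W]
    (i : E →L[ℝ] W) (π : W →L[ℝ] E) (h : ∀ x, π (i x) = x) : Good.{w, v} W := fun Z _ _ =>
  hE.complemented (W × Z) ((ContinuousLinearMap.inl ℝ W Z).comp i)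
    (π.comp (ContinuousLinearMap.fst ℝ W Z)) (fun x => h x)

end Pool.Agent.W2helper13.Sph
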